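import Mathlib

/-!
# Free associative algebras and the Jacobian matrix of an endomorphism
-/

set_option autoImplicit false
set_option linter.unusedSectionVars false
set_option linter.unusedSimpArgs false

namespace Pool.Agent.R933.Ga

open MonoidAlgebra MulOpposite

section lin

variable {K M V : Type} [Field K] [Monoid M] [AddCommGroup V] [Module K V]

/-- linear extension -/
noncomputable def lx (F : M → V) : MonoidAlgebra K M →ₗ[K] V where
  toFun f := Finsupp.linearCombination K F f.coeff
  map_add' f g := by rw [coeff_add, map_add]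
  map_smul' c f := by rw [coeff_smul, map_smul, RingHom.id_apply]

theorem lx_single (F : M → V) (m : M) (c : K) : lx F (single m c) = c • F m := by
  show Finsupp.linearCombination K F (single m c).coeff = _
  rw [coeff_single, Finsupp.linearCombination_single]

theorem single_smul (m : M) (c : K) : (single m c : MonoidAlgebra K M) = c • single m 1 := by
  ext
  simp

theorem lin_ext {f g : MonoidAlgebra K M →ₗ[K] V}
    (h : ∀ m, f (single m 1) = g (single m 1)) (x : MonoidAlgebra K M) : f x = g x := by
  induction x using MonoidAlgebra.induction_linear with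
  | zero => rw [map_zero, map_zero]
  | add x y hx hy => rw [map_add, map_add, hx, hy]
  | single m r => rw [single_smul, map_smul, map_smul, h]

end lin

/-- the free associative algebra over `K` on `X`; the words in `X` are a basis -/
abbrev Fa (K X : Type) [Field K] : Type := MonoidAlgebra K (FreeMonoid X)

/-- `A ⊗ Aᵒᵖ` for the free associative algebra `A`; the pairs of words `(u, op v)` are a basis -/
abbrev Fe (K X : Type) [Field K] : Type := MonoidAlgebra K (FreeMonoid X × (FreeMonoid X)ᵐᵒᵖ)

section der

variable {K X : Type} [Field K] [DecidableEq X]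

/-- `u ⊗ v` -/
noncomputable def tp (u v : List X) : Fe K X :=
  single (FreeMonoid.ofList u, op (FreeMonoid.ofList v)) 1

theorem tp_mul (u v u' v' : List X) : (tp u v : Fe K X) * tp u' v' = tp (u ++ u') (v' ++ v) := by
  unfold tp
  rw [single_mul_single, one_mul]
  rfl

/-- the partial derivative of a word: the sum of all `u ⊗ v` with `w = u i v` -/
noncomputable def dw (K : Type) [Field K] (i : X) : List X → Fe K X
  | [] => 0
  | x :: w => (if x = i then tp [] w else 0) + tp [x] [] * dw K i w

theorem dw_append (i : X) (u v : List X) :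
    dw K i (u ++ v) = tp u [] * dw K i v + tp [] v * dw K i u := by
  induction u with
  | nil =>
    show dw K i v = tp [] [] * dw K i v + tp [] v * (0 : Fe K X)
    rw [mul_zero, add_zero]
    have : (tp [] [] : Fe K X) = 1 := rfl
    rw [this, one_mul]
  | cons x u ih =>
    show (if x = i then tp [] (u ++ v) else 0) + tp [x] [] * dw K i (u ++ v) =
      tp (x :: u) [] * dw K i v + tp [] v * ((if x = i then tp [] u else 0) + tp [x] [] * dw K i u)
    rw [ih, mul_add, mul_add, ← mul_assoc, ← mul_assoc, ← mul_assoc, tp_mul, tp_mul, tp_mul]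
    have h1 : (tp [] v : Fe K X) * (if x = i then tp [] u else 0) =
        if x = i then tp [] (u ++ v) else 0 := by
      split_ifs
      · rw [tp_mul]
        rfl
      · rw [mul_zero]
    rw [h1]
    simp only [List.append_nil, List.nil_append, List.singleton_append]
    abel

/-- the partial derivatives `A → A ⊗ Aᵒᵖ` -/
noncomputable def der (i : X) : Fa K X →ₗ[K] Fe K X := lx (fun w => dw K i w.toList)

/-- `a ↦ a ⊗ 1` -/
noncomputable def lf : Fa K X →ₗ[K] Fe K X := lx (fun w => tp w.toList [])

/-- `a ↦ 1 ⊗ a` -/
noncomputable def rf : Fa K X →ₗ[K] Fe K X := lx (fun w => tp [] w.toList)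

theorem der_single (i : X) (w : FreeMonoid X) (c : K) :
    der i (single w c) = c • dw K i w.toList := lx_single _ _ _
theorem lf_single (w : FreeMonoid X) (c : K) :
    (lf (single w c) : Fe K X) = c • tp w.toList [] := lx_single _ _ _
theorem rf_single (w : FreeMonoid X) (c : K) :
    (rf (single w c) : Fe K X) = c • tp [] w.toList := lx_single _ _ _

theorem bil_ext {V : Type} [AddCommGroup V] [Module K V] {M : Type} [Monoid M]
    (F G : MonoidAlgebra K M →ₗ[K] MonoidAlgebra K M →ₗ[K] V)
    (h : ∀ m m', F (single m 1) (single m' 1) = G (single m 1) (single m' 1))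
    (x y : MonoidAlgebra K M) : F x y = G x y := by
  have h1 : ∀ x m', F x (single m' 1) = G x (single m' 1) := fun x m' =>
    lin_ext (f := F.flip (single m' 1)) (g := G.flip (single m' 1)) (fun m => h m m') x
  exact lin_ext (f := F x) (g := G x) (fun m' => h1 x m') y

theorem lf_mul (f g : Fa K X) : (lf (f * g) : Fe K X) = lf f * lf g := by
  have key := bil_ext ((LinearMap.mul K (Fa K X)).compr₂ lf)
    (((LinearMap.mul K (Fe K X)).compl₁₂ lf lf)) ?_ f g
  · simpa only [LinearMap.compr₂_apply, LinearMap.mul_apply', LinearMap.compl₁₂_apply] using key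
  intro m m'
  simp only [LinearMap.compr₂_apply, LinearMap.mul_apply', LinearMap.compl₁₂_apply]
  rw [single_mul_single, lf_single, lf_single, lf_single, one_mul, one_smul, one_smul, one_smul,
    tp_mul]
  rfl

theorem rf_mul (f g : Fa K X) : (rf (f * g) : Fe K X) = rf g * rf f := by
  have key := bil_ext ((LinearMap.mul K (Fa K X)).compr₂ rf)
    (((LinearMap.mul K (Fe K X)).compl₁₂ rf rf).flip) ?_ f g
  · simpa only [LinearMap.compr₂_apply, LinearMap.mul_apply', LinearMap.compl₁₂_apply,
      LinearMap.flip_apply] using key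
  intro m m'
  simp only [LinearMap.compr₂_apply, LinearMap.mul_apply', LinearMap.compl₁₂_apply,
      LinearMap.flip_apply]
  rw [single_mul_single, rf_single, rf_single, rf_single, one_mul, one_smul, one_smul, one_smul,
    tp_mul]
  rfl

theorem lf_one : (lf (1 : Fa K X) : Fe K X) = 1 := by
  rw [one_def, lf_single, one_smul]
  rfl

theorem rf_one : (rf (1 : Fa K X) : Fe K X) = 1 := by
  rw [one_def, rf_single, one_smul]
  rfl

theorem lr_comm (f g : Fa K X) : (lf f * rf g : Fe K X) = rf g * lf f := by
  have key := bil_ext ((LinearMap.mul K (Fe K X)).compl₁₂ lf rf)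
    (((LinearMap.mul K (Fe K X)).compl₁₂ rf lf).flip) ?_ f g
  · simpa only [LinearMap.mul_apply', LinearMap.compl₁₂_apply, LinearMap.flip_apply] using key
  intro m m'
  simp only [LinearMap.mul_apply', LinearMap.compl₁₂_apply, LinearMap.flip_apply]
  rw [lf_single, rf_single, one_smul, one_smul, tp_mul, tp_mul]
  simp

/-- **the product rule** -/
theorem der_mul (i : X) (f g : Fa K X) :
    der i (f * g) = lf f * der i g + rf g * der i f := by
  have key := bil_ext ((LinearMap.mul K (Fa K X)).compr₂ (der i))
    ((LinearMap.mul K (Fe K X)).compl₁₂ lf (der i) +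
      ((LinearMap.mul K (Fe K X)).compl₁₂ rf (der i)).flip) ?_ f g
  · simpa only [LinearMap.compr₂_apply, LinearMap.mul_apply', LinearMap.compl₁₂_apply,
      LinearMap.flip_apply, LinearMap.add_apply] using key
  intro m m'
  simp only [LinearMap.compr₂_apply, LinearMap.mul_apply', LinearMap.compl₁₂_apply,
      LinearMap.flip_apply, LinearMap.add_apply]
  rw [single_mul_single, der_single, der_single, der_single, lf_single, rf_single, one_mul,
    one_smul, one_smul, one_smul, one_smul, one_smul]
  exact dw_append i m.toList m'.toList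

/-- the variables -/
noncomputable def xv (i : X) : Fa K X := single (FreeMonoid.of i) 1

theorem der_xv (i j : X) : (der j (xv i) : Fe K X) = if i = j then 1 else 0 := by
  unfold xv
  rw [der_single, one_smul]
  show (if i = j then tp [] [] else 0) + tp [i] [] * (0 : Fe K X) = _
  rw [mul_zero, add_zero]
  rfl

theorem der_one (i : X) : (der i (1 : Fa K X) : Fe K X) = 0 := by
  rw [one_def, der_single, one_smul]
  rfl

/-- the action of an endomorphism on `A ⊗ Aᵒᵖ` -/
noncomputable def en (φ : Fa K X →ₐ[K] Fa K X) : Fe K X →ₐ[K] Fe K X :=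
  MonoidAlgebra.lift K (Fe K X) (FreeMonoid X × (FreeMonoid X)ᵐᵒᵖ)
    { toFun := fun m => lf (φ (single m.1 1)) * rf (φ (single m.2.unop 1))
      map_one' := by
        show (lf (φ (single 1 1)) * rf (φ (single 1 1)) : Fe K X) = 1
        rw [← one_def, map_one, lf_one, rf_one, one_mul]
      map_mul' := by
        intro m m'
        show (lf (φ (single (m.1 * m'.1) 1)) * rf (φ (single (m'.2.unop * m.2.unop) 1)) : Fe K X) =
          lf (φ (single m.1 1)) * rf (φ (single m.2.unop 1)) *
          (lf (φ (single m'.1 1)) * rf (φ (single m'.2.unop 1)))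
        have h1 : ∀ a b : FreeMonoid X, (single (a * b) 1 : Fa K X) = single a 1 * single b 1 := by
          intro a b
          rw [single_mul_single, one_mul]
        rw [h1, h1, map_mul φ, map_mul φ, lf_mul, rf_mul]
        have h2 := lr_comm (φ (single m'.1 1)) (φ (single m.2.unop 1))
        calc _ = lf (φ (single m.1 1)) * (lf (φ (single m'.1 1)) * rf (φ (single m.2.unop 1))) *
              rf (φ (single m'.2.unop 1)) := by simp only [mul_assoc]
          _ = _ := by rw [h2]; simp only [mul_assoc] }

theorem en_tp (φ : Fa K X →ₐ[K] Fa K X) (u v : List X) : en φ (tp u v) =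
    lf (φ (single (FreeMonoid.ofList u) 1)) * rf (φ (single (FreeMonoid.ofList v) 1)) := by
  unfold en tp
  rw [MonoidAlgebra.lift_single, one_smul]
  rfl

theorem en_lf (φ : Fa K X →ₐ[K] Fa K X) (f : Fa K X) : en φ (lf f) = lf (φ f) := by
  refine lin_ext (f := (en φ).toLinearMap ∘ₗ lf) (g := lf ∘ₗ φ.toLinearMap) ?_ f
  intro m
  show en φ (lf (single m 1)) = lf (φ (single m 1))
  rw [lf_single, one_smul, en_tp]
  have : (single (FreeMonoid.ofList ([] : List X)) 1 : Fa K X) = 1 := rfl
  rw [this, map_one, rf_one, mul_one]
  rfl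

theorem en_rf (φ : Fa K X →ₐ[K] Fa K X) (f : Fa K X) : en φ (rf f) = rf (φ f) := by
  refine lin_ext (f := (en φ).toLinearMap ∘ₗ rf) (g := rf ∘ₗ φ.toLinearMap) ?_ f
  intro m
  show en φ (rf (single m 1)) = rf (φ (single m 1))
  rw [rf_single, one_smul, en_tp]
  have : (single (FreeMonoid.ofList ([] : List X)) 1 : Fa K X) = 1 := rfl
  rw [this, map_one, lf_one, one_mul]
  rfl

variable [Fintype X]

/-- **the chain rule** -/
theorem chain (φ : Fa K X →ₐ[K] Fa K X) (j : X) (f : Fa K X) :
    der j (φ f) = ∑ i, en φ (der i f) * der j (φ (xv i)) := by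
  have hw : ∀ w : List X, der j (φ (single (FreeMonoid.ofList w) 1)) =
      ∑ i, en φ (der i (single (FreeMonoid.ofList w) 1)) * der j (φ (xv i)) := by
    intro w
    induction w with
    | nil =>
      have : (single (FreeMonoid.ofList ([] : List X)) 1 : Fa K X) = 1 := rfl
      rw [this, map_one, der_one]
      simp only [der_one, map_zero, zero_mul, Finset.sum_const_zero]
    | cons x w ih =>
      have h1 : (single (FreeMonoid.ofList (x :: w)) 1 : Fa K X) =
          xv x * single (FreeMonoid.ofList w) 1 := by
        unfold xv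
        rw [single_mul_single, one_mul]
        rfl
      rw [h1, map_mul, der_mul, ih]
      simp only [der_mul, map_add, map_mul, en_lf, en_rf, add_mul, Finset.sum_add_distrib,
        Finset.mul_sum, mul_assoc]
      congr 1
      rw [Finset.sum_eq_single x]
      · rw [der_xv, if_pos rfl, map_one, one_mul]
      · intro i _ hi
        rw [der_xv, if_neg (Ne.symm hi), map_zero, zero_mul, mul_zero]
      · intro h
        exact absurd (Finset.mem_univ _) h
  have key := lin_ext (f := (der j) ∘ₗ φ.toLinearMap)
    (g := ∑ i, (LinearMap.mulRight K (der j (φ (xv i)))) ∘ₗ (en φ).toLinearMap ∘ₗ (der i)) (by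
      intro m
      rw [LinearMap.sum_apply]
      exact hw m.toList) f
  rw [LinearMap.sum_apply] at key
  exact key

/-- the Jacobian matrix of an endomorphism -/
noncomputable def Jac (φ : Fa K X →ₐ[K] Fa K X) : Matrix X X (Fe K X) :=
  Matrix.of fun i j => der j (φ (xv i))

theorem Jac_comp (φ ψ : Fa K X →ₐ[K] Fa K X) :
    Jac (φ.comp ψ) = (Jac ψ).map (en φ) * Jac φ := by
  ext1 i j
  rw [Matrix.mul_apply]
  exact chain φ j (ψ (xv i))

theorem Jac_id : Jac (AlgHom.id K (Fa K X)) = 1 := by
  ext1 i j
  show der j (xv i) = _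
  rw [der_xv, Matrix.one_apply]

end der

end Pool.Agent.R933.Ga
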