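import Pool.Agent.R933.Ga.Rank

/-!
# Determinants in the cyclic representations
-/

set_option autoImplicit false
set_option linter.unusedSectionVars false
set_option linter.unusedSimpArgs false
set_option synthInstance.maxHeartbeats 400000
set_option maxHeartbeats 4000000

namespace Pool.Agent.R933.Ga

open MonoidAlgebra MulOpposite

section detmod

theorem det_mod {ι A : Type} [Fintype ι] [DecidableEq ι] [CommRing A] (Z : Matrix ι ι A) (c : A) :
    ∃ g, (1 + c • Z).det = 1 + c * g := by
  have h1 : Ideal.Quotient.mk (Ideal.span {c}) ((1 + c • Z).det) = 1 := by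
    rw [RingHom.map_det]
    have h2 : (Ideal.Quotient.mk (Ideal.span {c})).mapMatrix (1 + c • Z) = 1 := by
      rw [map_add, map_one]
      have h3 : (Ideal.Quotient.mk (Ideal.span {c})).mapMatrix (c • Z) = 0 := by
        ext i j
        show Ideal.Quotient.mk (Ideal.span {c}) (c * Z i j) = 0
        rw [Ideal.Quotient.eq_zero_iff_mem]
        exact Ideal.mul_mem_right _ _ (Ideal.mem_span_singleton_self c)
      rw [h3, add_zero]
    rw [h2, Matrix.det_one]
  rw [← map_one (Ideal.Quotient.mk (Ideal.span {c})), Ideal.Quotient.mk_eq_mk_iff_sub_mem,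
    Ideal.mem_span_singleton] at h1
  obtain ⟨g, hg⟩ := h1
  exact ⟨g, by linear_combination hg⟩

theorem ldet_mod {A M : Type} [CommRing A] [AddCommGroup M] [Module A M] [Module.Free A M]
    [Module.Finite A M] (Z : Module.End A M) (c : A) :
    ∃ g, LinearMap.det (1 + c • Z) = 1 + c * g := by
  classical
  let b := Module.Free.chooseBasis A M
  obtain ⟨g, hg⟩ := det_mod (LinearMap.toMatrix b b Z) c
  refine ⟨g, ?_⟩
  rw [← hg, ← LinearMap.det_toMatrix b]
  congr 1
  rw [map_add, map_smul]
  congr 1
  exact LinearMap.toMatrix_one b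

end detmod

section deg

variable {K X : Type} [Field K]

/-- elements of degree at least `s` -/
noncomputable def Low (K X : Type) [Field K] (s : ℕ) : Submodule K (Fe K X) :=
  Submodule.span K {b | ∃ m : PW X, s ≤ dg m ∧ b = single m 1}

theorem Low_ind {s : ℕ} {P : Fe K X → Prop} (h0 : P 0) (ha : ∀ x y, P x → P y → P (x + y))
    (hs : ∀ (c : K) x, P x → P (c • x)) (h1 : ∀ m : PW X, s ≤ dg m → P (single m 1))
    {b : Fe K X} (hb : b ∈ Low K X s) : P b := by
  unfold Low at hb
  induction hb using Submodule.span_induction with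
  | mem x hx =>
    obtain ⟨m, hm, rfl⟩ := hx
    exact h1 m hm
  | zero => exact h0
  | add x y _ _ hx hy => exact ha x y hx hy
  | smul c x _ hx => exact hs c x hx

theorem Low_single {s : ℕ} {m : PW X} (hm : s ≤ dg m) : (single m 1 : Fe K X) ∈ Low K X s :=
  Submodule.subset_span ⟨m, hm, rfl⟩

theorem cmp_low {s : ℕ} {b : Fe K X} (hb : b ∈ Low K X s) {k : ℕ} (hk : k < s) : cmp k b = 0 := by
  refine Low_ind (P := fun b => cmp k b = (0 : Fe K X)) (map_zero _) ?_ ?_ ?_ hb
  · intro x y hx hy
    rw [map_add, hx, hy, add_zero]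
  · intro c x hx
    rw [map_smul, hx, smul_zero]
  · intro m hm
    rw [cmp_single, if_neg (by omega)]

theorem tp_mul_low {s : ℕ} (i : X) {b : Fe K X} (hb : b ∈ Low K X s) :
    tp [i] [] * b ∈ Low K X (s + 1) := by
  refine Low_ind (P := fun b => tp [i] [] * b ∈ Low K X (s + 1)) ?_ ?_ ?_ ?_ hb
  · rw [mul_zero]; exact Submodule.zero_mem _
  · intro x y hx hy
    rw [mul_add]; exact Submodule.add_mem _ hx hy
  · intro c x hx
    rw [mul_smul_comm]; exact Submodule.smul_mem _ _ hx
  · intro m hm
    unfold tp
    rw [single_mul_single, one_mul]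
    apply Low_single
    rw [dg_mul]
    have : dg ((FreeMonoid.ofList [i], op (FreeMonoid.ofList [])) : PW X) = 1 := rfl
    omega

/-- the elements of order at least `m` of the free algebra: the span of the words of length at
least `m`, this is `I ^ m` -/
noncomputable def lowA (K X : Type) [Field K] (m : ℕ) : Submodule K (Fa K X) :=
  Submodule.span K {f | ∃ w : FreeMonoid X, m ≤ w.length ∧ f = single w 1}

variable [DecidableEq X]

theorem dw_low (j : X) (w : List X) : dw K j w ∈ Low K X (w.length - 1) := by
  induction w with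
  | nil => exact Submodule.zero_mem _
  | cons i w ih =>
    show (if i = j then tp [] w else 0) + tp [i] [] * dw K j w ∈ Low K X (w.length + 1 - 1)
    apply Submodule.add_mem
    · split_ifs
      · apply Low_single
        show w.length + 1 - 1 ≤ 0 + w.length
        omega
      · exact Submodule.zero_mem _
    · rcases w with _ | ⟨i', w⟩
      · show tp [i] [] * (0 : Fe K X) ∈ _
        rw [mul_zero]
        exact Submodule.zero_mem _
      · have h1 := tp_mul_low i ih
        rw [List.length_cons] at h1 ⊢
        rw [show w.length + 1 - 1 + 1 = w.length + 1 + 1 - 1 by omega] at h1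
        exact h1

theorem Low_mono {s t : ℕ} (h : s ≤ t) : Low K X t ≤ Low K X s := by
  apply Submodule.span_mono
  rintro b ⟨m, hm, rfl⟩
  exact ⟨m, h.trans hm, rfl⟩

theorem der_low (j : X) {m : ℕ} {f : Fa K X} (hf : f ∈ lowA K X m) :
    der j f ∈ Low K X (m - 1) := by
  unfold lowA at hf
  induction hf using Submodule.span_induction with
  | mem x hx =>
    obtain ⟨w, hw, rfl⟩ := hx
    rw [der_single, one_smul]
    have h1 := dw_low (K := K) j w.toList
    refine Low_mono ?_ h1
    have : w.toList.length = w.length := rfl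
    omega
  | zero => rw [map_zero]; exact Submodule.zero_mem _
  | add x y _ _ hx hy => rw [map_add]; exact Submodule.add_mem _ hx hy
  | smul c x _ hx => rw [map_smul]; exact Submodule.smul_mem _ _ hx

end deg

section trep

variable {K X : Type} [Field K] {r : ℕ}

theorem tw_XC {P : Type} [CommRing P] (x : X → ZMod r → P) (u : List X) (a : ZMod r) :
    tw (fun i a => Polynomial.X * Polynomial.C (x i a)) u a =
      Polynomial.X ^ u.length * Polynomial.C (tw x u a) := by
  induction u generalizing a with
  | nil => simp [tw]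
  | cons i u ih =>
    show Polynomial.X * Polynomial.C (x i a) * tw _ u (a + 1) =
      Polynomial.X ^ (u.length + 1) * Polynomial.C (x i a * tw x u (a + 1))
    rw [ih, map_mul]
    ring

theorem cw_XC {P : Type} [CommRing P] (x y : X → ZMod r → P) (m : PW X) (w : ZMod r × ZMod r) :
    cw (fun i a => Polynomial.X * Polynomial.C (x i a))
      (fun i a => Polynomial.X * Polynomial.C (y i a)) m w =
      Polynomial.X ^ dg m * Polynomial.C (cw x y m w) := by
  unfold cw
  rw [tw_XC, tw_XC, map_mul, List.length_reverse]
  have : dg m = m.1.toList.length + m.2.unop.toList.length := rfl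
  rw [this]
  ring

/-- the coefficients -/
noncomputable abbrev PT (K X : Type) [Field K] (r : ℕ) : Type := Polynomial (Polynomial (QQ K X r))

/-- the graded generic cyclic representation -/
noncomputable def rt (K X : Type) [Field K] (r : ℕ) :
    Fe K X →ₐ[K] Module.End (PT K X r) (ZMod r × ZMod r → PT K X r) :=
  rep (K := K) (fun i a => Polynomial.X * Polynomial.C (xg K i a))
    (fun i a => Polynomial.X * Polynomial.C (yg K i a))

theorem rt_single (m : PW X) (c : K) (f : ZMod r × ZMod r → PT K X r) (w : ZMod r × ZMod r) :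
    rt K X r (single m c) f w = c • (Polynomial.X ^ dg m *
      (Polynomial.C (cw (xg K) (yg K) m w) * f (w + sw m))) := by
  unfold rt
  rw [rep_single, cw_XC, mul_assoc]

/-- the coefficients of the graded representation -/
theorem rt_coeff (β : Fe K X) (f : ZMod r × ZMod r → PT K X r) (w : ZMod r × ZMod r) (k : ℕ) :
    (rt K X r β f w).coeff k = ∑ p ∈ Finset.HasAntidiagonal.antidiagonal k,
      rg K X r (cmp p.1 β) (fun w => (f w).coeff p.2) w := by
  induction β using MonoidAlgebra.induction_linear with
  | zero => simp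
  | add x y hx hy =>
    rw [map_add, LinearMap.add_apply, Pi.add_apply, Polynomial.coeff_add, hx, hy,
      ← Finset.sum_add_distrib]
    apply Finset.sum_congr rfl
    intro p _
    rw [map_add, map_add, LinearMap.add_apply, Pi.add_apply]
  | single m c =>
    rw [rt_single, Polynomial.coeff_smul, Polynomial.coeff_X_pow_mul']
    split_ifs with h
    · rw [Polynomial.coeff_C_mul, Finset.sum_eq_single (dg m, k - dg m)]
      · rw [cmp_single, if_pos rfl, rep_single]
      · rintro ⟨p, q⟩ hp hne
        rw [Finset.HasAntidiagonal.mem_antidiagonal] at hp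
        rw [cmp_single, if_neg]
        · rw [map_zero]
          rfl
        · intro h1
          apply hne
          have hp' : p + q = k := hp
          have h1' : dg m = p := h1
          rw [Prod.mk.injEq]
          exact ⟨h1'.symm, by omega⟩
      · intro h1
        exact absurd (Finset.HasAntidiagonal.mem_antidiagonal.2 (by simp; omega)) h1
    · rw [smul_zero]
      symm
      apply Finset.sum_eq_zero
      rintro ⟨p, q⟩ hp
      rw [Finset.HasAntidiagonal.mem_antidiagonal] at hp
      have hp' : p + q = k := hp
      rw [cmp_single, if_neg]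
      · rw [map_zero]
        rfl
      · intro h1
        have h1' : dg m = p := h1
        omega

theorem rt_low {s : ℕ} {b : Fe K X} (hb : b ∈ Low K X s) :
    ∃ Z : (ZMod r × ZMod r → PT K X r) →ₗ[PT K X r] (ZMod r × ZMod r → PT K X r),
      ∀ f w, rt K X r b f w = Polynomial.X ^ s * Z f w := by
  refine Low_ind (P := fun b =>
    ∃ Z : (ZMod r × ZMod r → PT K X r) →ₗ[PT K X r] (ZMod r × ZMod r → PT K X r),
      ∀ f w, rt K X r b f w = Polynomial.X ^ s * Z f w) ?_ ?_ ?_ ?_ hb
  · refine ⟨0, fun f w => ?_⟩
    rw [map_zero]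
    show (0 : PT K X r) = _ * 0
    rw [mul_zero]
  · rintro x y ⟨Z1, h1⟩ ⟨Z2, h2⟩
    refine ⟨Z1 + Z2, fun f w => ?_⟩
    rw [map_add, LinearMap.add_apply, LinearMap.add_apply, Pi.add_apply, Pi.add_apply, h1, h2,
      mul_add]
  · rintro c x ⟨Z1, h1⟩
    refine ⟨c • Z1, fun f w => ?_⟩
    rw [map_smul, LinearMap.smul_apply, LinearMap.smul_apply, Pi.smul_apply, Pi.smul_apply, h1,
      mul_smul_comm]
  · intro m hm
    refine ⟨(Polynomial.X ^ (dg m - s) : PT K X r) •
      aw (fun i a => Polynomial.C (xg K i a)) (fun i a => Polynomial.C (yg K i a)) m,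
      fun f w => ?_⟩
    rw [rt_single, one_smul]
    show _ = Polynomial.X ^ s * (Polynomial.X ^ (dg m - s) * (cw (fun i a => Polynomial.C (xg K i a))
      (fun i a => Polynomial.C (yg K i a)) m w * f (w + sw m)))
    have h1 := tw_map (P := Polynomial (QQ K X r)) (P' := PT K X r) Polynomial.C (xg K)
      m.1.toList w.1
    have h2 := tw_map (P := Polynomial (QQ K X r)) (P' := PT K X r) Polynomial.C (yg K)
      m.2.unop.toList.reverse w.2
    have h3 : cw (fun i a => Polynomial.C (xg K i a)) (fun i a => Polynomial.C (yg K i a)) m w =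
        (Polynomial.C (cw (xg K) (yg K) m w) : PT K X r) := by
      unfold cw
      rw [map_mul, h1, h2]
    have h4 : (Polynomial.X ^ dg m : PT K X r) = Polynomial.X ^ s * Polynomial.X ^ (dg m - s) := by
      rw [← pow_add]
      congr 1
      omega
    rw [h3, h4]
    ring

variable {Y : Type} [DecidableEq X] [DecidableEq Y] [Fintype Y]

/-- the action of the matrices -/
noncomputable def Th (K X : Type) {Y : Type} [Field K] [DecidableEq Y] [Fintype Y] (r : ℕ) :
    Matrix Y Y (Fe K X) →+* Module.End (PT K X r) (Y → ZMod r × ZMod r → PT K X r) :=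
  (endVecRingEquivMatrixEnd Y (PT K X r) (ZMod r × ZMod r → PT K X r)).symm.toRingHom.comp
    ((rt K X r).toRingHom.mapMatrix)

theorem Th_apply (J : Matrix Y Y (Fe K X)) (y : Y → ZMod r × ZMod r → PT K X r) (a : Y) :
    Th K X r J y a = ∑ c, rt K X r (J a c) (y c) := rfl

/-- the determinant of the action -/
noncomputable def dt (K X : Type) {Y : Type} [Field K] [DecidableEq Y] [Fintype Y] (r : ℕ)
    (J : Matrix Y Y (Fe K X)) : PT K X r :=
  LinearMap.det (M := Y → ZMod r × ZMod r → PT K X r) (A := PT K X r) (Th K X r J)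

theorem dt_mul (J J' : Matrix Y Y (Fe K X)) : dt K X r (J * J') = dt K X r J * dt K X r J' := by
  unfold dt
  rw [map_mul, map_mul]

theorem dt_one : dt K X r (1 : Matrix Y Y (Fe K X)) = 1 := by
  unfold dt
  rw [map_one, map_one]

theorem Th_low {s : ℕ} (M : Matrix Y Y (Fe K X)) (hM : ∀ i j, M i j ∈ Low K X s) :
    ∃ Z : (Y → ZMod r × ZMod r → PT K X r) →ₗ[PT K X r] (Y → ZMod r × ZMod r → PT K X r),
      ∀ y a w, Th K X r M y a w = Polynomial.X ^ s * Z y a w := by
  choose Z hZ using fun i j => rt_low (r := r) (hM i j)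
  refine ⟨LinearMap.pi fun a => ∑ c, Z a c ∘ₗ LinearMap.proj c, fun y a w => ?_⟩
  rw [Th_apply, LinearMap.pi_apply, LinearMap.sum_apply, Finset.sum_apply, Finset.sum_apply,
    Finset.mul_sum]
  apply Finset.sum_congr rfl
  intro c _
  rw [hZ]
  rfl

theorem dt_low [NeZero r] {s : ℕ} (M : Matrix Y Y (Fe K X)) (hM : ∀ i j, M i j ∈ Low K X s) :
    ∃ g, dt K X r (1 + M) = 1 + Polynomial.X ^ s * g := by
  obtain ⟨Z, hZ⟩ := Th_low (r := r) M hM
  obtain ⟨g, hg⟩ := ldet_mod (A := PT K X r) (M := Y → ZMod r × ZMod r → PT K X r) Z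
    (Polynomial.X ^ s)
  refine ⟨g, ?_⟩
  rw [← hg]
  unfold dt
  congr 1
  apply LinearMap.ext
  intro y
  funext a w
  rw [map_add, map_one, LinearMap.add_apply, Pi.add_apply, Pi.add_apply, hZ]
  rfl

/-- **the inverse is polynomial in every cyclic representation** -/
theorem bound_of_det [NeZero r] (J : Matrix Y Y (Fe K X)) (hJ : Mc 0 J = 1)
    (hdet : IsUnit (dt K X r J)) :
    ∃ D, ∀ k, D < k → ∀ a b, rg K X r (Ek J k a b) = 0 := by
  obtain ⟨Z, hZ⟩ := ((LinearMap.isUnit_iff_isUnit_det _).2 hdet).exists_right_inv
  -- the coefficients of the columns of the inverse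
  let y0 : Y → ZMod r × ZMod r → Y → ZMod r × ZMod r → PT K X r :=
    fun b w => Pi.single b (Pi.single w 1)
  have hsol : ∀ b w, Th K X r J (Z (y0 b w)) = y0 b w := by
    intro b w
    have := LinearMap.congr_fun hZ (y0 b w)
    exact this
  have key : ∀ b w k a, (fun w' => (Z (y0 b w) a w').coeff k) =
      rg K X r (Ek J k a b) (Pi.single w 1) := by
    intro b w k
    induction k using Nat.strong_induction_on with
    | _ k ih =>
      intro a
      have h2 : ∀ w', ∑ p ∈ Finset.HasAntidiagonal.antidiagonal k, ∑ c,
          rg K X r (Mc p.1 J a c) (fun w'' => (Z (y0 b w) c w'').coeff p.2) w' =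
          (y0 b w a w').coeff k := by
        intro w'
        rw [show y0 b w a w' = Th K X r J (Z (y0 b w)) a w' from
          (congrFun (congrFun (hsol b w) a) w').symm, Th_apply, Finset.sum_apply,
          Polynomial.finsetSum_coeff, Finset.sum_comm]
        apply Finset.sum_congr rfl
        intro c _
        rw [rt_coeff]
        rfl
      rcases k with _ | k
      · funext w'
        have h3 := h2 w'
        rw [Finset.HasAntidiagonal.antidiagonal_zero, Finset.sum_singleton, hJ] at h3
        rw [Finset.sum_eq_single a] at h3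
        · rw [Matrix.one_apply_eq, map_one] at h3
          have h3' : (Z (y0 b w) a w').coeff 0 = (y0 b w a w').coeff 0 := h3
          rw [h3', Ek_zero J hJ]
          show ((Pi.single b (Pi.single w 1) : Y → ZMod r × ZMod r → PT K X r) a w').coeff 0 = _
          by_cases hab : a = b
          · subst hab
            rw [Pi.single_eq_same, Matrix.one_apply_eq, map_one]
            show ((Pi.single w 1 : ZMod r × ZMod r → PT K X r) w').coeff 0 =
              (Pi.single w 1 : ZMod r × ZMod r → Polynomial (QQ K X r)) w'
            rw [Pi.single_apply, Pi.single_apply]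
            split_ifs
            · exact Polynomial.coeff_one_zero
            · rfl
          · rw [Pi.single_eq_of_ne hab, Matrix.one_apply_ne hab, map_zero]
            rfl
        · intro c _ hc
          rw [Matrix.one_apply_ne (Ne.symm hc), map_zero]
          rfl
        · intro h4
          exact absurd (Finset.mem_univ _) h4
      · funext w'
        have h3 := h2 w'
        have h4 : (y0 b w a w').coeff (k + 1) = 0 := by
          show ((Pi.single b (Pi.single w 1) : Y → ZMod r × ZMod r → PT K X r) a w').coeff (k + 1) = 0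
          by_cases hab : a = b
          · subst hab
            rw [Pi.single_eq_same, Pi.single_apply]
            split_ifs
            · rw [Polynomial.coeff_one, if_neg (by omega)]
            · rfl
          · rw [Pi.single_eq_of_ne hab]
            rfl
        rw [h4, Finset.Nat.antidiagonal_succ, Finset.sum_cons, Finset.sum_map] at h3
        have h5 : ∑ c, rg K X r (Mc 0 J a c) (fun w'' => (Z (y0 b w) c w'').coeff (k + 1)) w' =
            (Z (y0 b w) a w').coeff (k + 1) := by
          rw [hJ, Finset.sum_eq_single a]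
          · rw [Matrix.one_apply_eq, map_one]
            rfl
          · intro c _ hc
            rw [Matrix.one_apply_ne (Ne.symm hc), map_zero]
            rfl
          · intro h4
            exact absurd (Finset.mem_univ _) h4
        have h3' : (Z (y0 b w) a w').coeff (k + 1) +
            ∑ p ∈ Finset.HasAntidiagonal.antidiagonal k, ∑ c, rg K X r (Mc (p.1 + 1) J a c)
              (fun w'' => (Z (y0 b w) c w'').coeff p.2) w' = 0 := by
          rw [← h5]
          exact h3
        rw [eq_neg_of_add_eq_zero_left h3', Ek_succ J hJ, Matrix.neg_apply, Matrix.sum_apply, map_neg,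
          map_sum, LinearMap.neg_apply, LinearMap.sum_apply, Pi.neg_apply, Finset.sum_apply]
        congr 1
        apply Finset.sum_congr rfl
        intro p hp
        rw [Finset.HasAntidiagonal.mem_antidiagonal] at hp
        rw [Matrix.mul_apply, map_sum, LinearMap.sum_apply, Finset.sum_apply]
        apply Finset.sum_congr rfl
        intro c _
        rw [ih p.2 (by omega) c, map_mul]
        rfl
  -- the bound
  let D : ℕ := Finset.univ.sup (fun s : (Y × (ZMod r × ZMod r)) × (Y × (ZMod r × ZMod r)) =>
    (Z (y0 s.1.1 s.1.2) s.2.1 s.2.2).natDegree)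
  refine ⟨D, fun k hk a b => ?_⟩
  apply LinearMap.pi_ext'
  intro w
  apply LinearMap.ext_ring
  show rg K X r (Ek J k a b) (Pi.single w 1) = 0
  rw [← key b w k a]
  funext w'
  apply Polynomial.coeff_eq_zero_of_natDegree_lt
  refine lt_of_le_of_lt ?_ hk
  exact Finset.le_sup (f := fun s : (Y × (ZMod r × ZMod r)) × (Y × (ZMod r × ZMod r)) =>
    (Z (y0 s.1.1 s.1.2) s.2.1 s.2.2).natDegree) (Finset.mem_univ ((b, w), (a, w')))

/-- **matrices with invertible determinants in all cyclic representations are invertible** -/
theorem unit_of_det (J : Matrix Y Y (Fe K X)) (hJ : Mc 0 J = 1)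
    (hdet : ∀ r : ℕ, r ≠ 0 → IsUnit (dt K X r J)) : IsUnit J := by
  obtain ⟨d, hd⟩ := exists_bound_mat J
  apply unit_of_bound J hJ ((d + 1) * Fintype.card Y)
  intro k hk
  have : NeZero (k + 1) := ⟨by omega⟩
  obtain ⟨D, hD⟩ := bound_of_det (r := k + 1) J hJ (hdet _ (by omega))
  have hV : 0 < Module.finrank (Polynomial (QQ K X (k + 1)))
      (ZMod (k + 1) × ZMod (k + 1) → Polynomial (QQ K X (k + 1))) := by
    rw [Module.finrank_pi]
    exact Fintype.card_pos
  have h1 := rank_bound (P := Polynomial (QQ K X (k + 1)))
    (V := ZMod (k + 1) × ZMod (k + 1) → Polynomial (QQ K X (k + 1)))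
    (rg K X (k + 1)).toRingHom J d hV hJ (fun l hl => hd l (by omega))
    (fun l β hβ hne f hf => dom hβ hne f hf) D hD k hk
  ext1 a b
  exact inj_small (Nat.lt_succ_self k) (Ek_mem J hJ k a b) (h1 a b)

end trep

end Pool.Agent.R933.Ga
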