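import Pool.Agent.R933.Ga.Rep

/-!
# Homogeneous elements act injectively in the generic cyclic representations
-/

set_option autoImplicit false
set_option linter.unusedSectionVars false
set_option linter.unusedSimpArgs false

namespace Pool.Agent.R933.Ga

open MonoidAlgebra MulOpposite

section nat

variable {X P P' : Type} [CommRing P] [CommRing P'] {r : ℕ}

theorem tw_map (g : P →+* P') (x : X → ZMod r → P) (u : List X) (a : ZMod r) :
    g (tw x u a) = tw (fun i a => g (x i a)) u a := by
  induction u generalizing a with
  | nil => exact map_one g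
  | cons i u ih =>
    show g (x i a * tw x u (a + 1)) = g (x i a) * tw (fun i a => g (x i a)) u (a + 1)
    rw [map_mul, ih]

theorem tw_shift (x : X → ZMod r → P) (c : ZMod r) (u : List X) (a : ZMod r) :
    tw (fun i a => x i (a + c)) u a = tw x u (a + c) := by
  induction u generalizing a with
  | nil => rfl
  | cons i u ih =>
    show x i (a + c) * tw (fun i a => x i (a + c)) u (a + 1) = x i (a + c) * tw x u (a + c + 1)
    rw [ih, show a + 1 + c = a + c + 1 by ring]

end nat

section gen

variable (K X : Type) [Field K] (r : ℕ)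

/-- the ring of coefficients -/
abbrev QQ : Type := MvPolynomial (Bool × X × ZMod r) K

variable {K X r}

/-- the variables -/
noncomputable def tv (K : Type) [Field K] (b : Bool) (i : X) (a : ZMod r) : QQ K X r :=
  MvPolynomial.X (b, i, a)

/-- the images of the left variables -/
noncomputable def xg (K : Type) [Field K] (i : X) (a : ZMod r) : Polynomial (QQ K X r) :=
  Polynomial.X * Polynomial.C (tv K true i a)

/-- the images of the right variables -/
noncomputable def yg (K : Type) [Field K] (i : X) (a : ZMod r) : Polynomial (QQ K X r) :=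
  Polynomial.C (tv K false i a)

theorem tw_xg (u : List X) (a : ZMod r) : tw (xg K) u a =
    Polynomial.X ^ u.length * Polynomial.C (tw (tv K true) u a) := by
  induction u generalizing a with
  | nil => simp [tw]
  | cons i u ih =>
    show xg K i a * tw (xg K) u (a + 1) = _
    rw [ih]
    show Polynomial.X * Polynomial.C (tv K true i a) *
      (Polynomial.X ^ u.length * Polynomial.C (tw (tv K true) u (a + 1))) =
      Polynomial.X ^ (u.length + 1) * Polynomial.C (tv K true i a * tw (tv K true) u (a + 1))
    rw [map_mul]
    ring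

theorem tw_yg (u : List X) (a : ZMod r) : tw (yg K) u a = Polynomial.C (tw (tv K false) u a) :=
  (tw_map (Polynomial.C : QQ K X r →+* _) (tv K false) u a).symm

theorem cw_xy (m : PW X) (w : ZMod r × ZMod r) : cw (xg K) (yg K) m w =
    Polynomial.X ^ m.1.toList.length * Polynomial.C (cw (tv K true) (tv K false) m w) := by
  unfold cw
  rw [tw_xg, tw_yg, map_mul, mul_assoc]

/-- the coefficients of the representation -/
noncomputable def cp (p : ℕ) (w : ZMod r × ZMod r) : Fe K X →ₗ[K] QQ K X r :=
  lx (fun m => if m.1.toList.length = p then cw (tv K true) (tv K false) m w else 0)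

theorem cp_single (p : ℕ) (w : ZMod r × ZMod r) (m : PW X) : cp p w (single m (1 : K)) =
    if m.1.toList.length = p then cw (tv K true) (tv K false) m w else 0 := by
  unfold cp
  rw [lx_single, one_smul]

/-- the shift of the variables -/
noncomputable def gs (w : ZMod r × ZMod r) : QQ K X r →ₐ[K] QQ K X r :=
  MvPolynomial.rename (fun s => (s.1, s.2.1, s.2.2 + if s.1 then w.1 else w.2))

theorem gs_inj (w : ZMod r × ZMod r) : Function.Injective (gs (K := K) (X := X) w) := by
  apply MvPolynomial.rename_injective
  rintro ⟨b, i, a⟩ ⟨b', i', a'⟩ h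
  simp only [Prod.mk.injEq] at h
  obtain ⟨rfl, rfl, h⟩ := h
  rw [add_left_injective _ |>.eq_iff] at h
  rw [h]

theorem gs_cw (w : ZMod r × ZMod r) (m : PW X) :
    gs w (cw (tv K true) (tv K false) m 0) = cw (tv K true) (tv K false) m w := by
  unfold cw
  rw [map_mul]
  have h1 : ∀ (b : Bool) (u : List X), gs w (tw (tv K b) u 0) =
      tw (tv K b) u (if b then w.1 else w.2) := by
    intro b u
    have e1 := tw_map (gs (K := K) (X := X) w : QQ K X r →+* QQ K X r) (tv K b) u 0
    have e2 := tw_shift (tv (r := r) (X := X) K b) (if b then w.1 else w.2) u 0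
    rw [zero_add] at e2
    rw [← e2]
    refine e1.trans ?_
    congr 1
    funext i a
    show gs w (MvPolynomial.X (b, i, a)) = MvPolynomial.X (b, i, a + if b then w.1 else w.2)
    unfold gs
    rw [MvPolynomial.rename_X]
  have e1 := h1 true m.1.toList
  have e2 := h1 false m.2.unop.toList.reverse
  simp only [if_true, Bool.false_eq_true, if_false] at e1 e2
  show gs w (tw (tv K true) m.1.toList 0) * gs w (tw (tv K false) m.2.unop.toList.reverse 0) = _
  rw [e1, e2]

theorem cp_gs (p : ℕ) (w : ZMod r × ZMod r) (β : Fe K X) : cp p w β = gs w (cp p 0 β) := by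
  refine lin_ext (f := cp p w) (g := (gs w).toLinearMap ∘ₗ cp p 0) ?_ β
  intro m
  show cp p w (single m 1) = gs w (cp p 0 (single m 1))
  rw [cp_single, cp_single]
  split_ifs
  · rw [gs_cw]
  · rw [map_zero]

/-- the generic cyclic representation -/
noncomputable abbrev rg (K X : Type) [Field K] (r : ℕ) : Fe K X →ₐ[K]
    Module.End (Polynomial (QQ K X r)) (ZMod r × ZMod r → Polynomial (QQ K X r)) :=
  rep (K := K) (xg K) (yg K)

theorem rg_formula {k : ℕ} {β : Fe K X} (hβ : β ∈ Hk K X k)
    (f : ZMod r × ZMod r → Polynomial (QQ K X r)) (w : ZMod r × ZMod r) :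
    rg K X r β f w = ∑ p ∈ Finset.range (k + 1), Polynomial.X ^ p *
      (Polynomial.C (cp p w β) * f (w + ((p : ZMod r), ((k - p : ℕ) : ZMod r)))) := by
  refine Hk_ind (P := fun β => rg K X r β f w = ∑ p ∈ Finset.range (k + 1), Polynomial.X ^ p *
      (Polynomial.C (cp p w β) * f (w + ((p : ZMod r), ((k - p : ℕ) : ZMod r))))) ?_ ?_ ?_ ?_ hβ
  · simp
  · intro β β' h1 h2
    rw [map_add, LinearMap.add_apply, Pi.add_apply, h1, h2, ← Finset.sum_add_distrib]
    apply Finset.sum_congr rfl
    intro p _
    rw [map_add, map_add]
    ring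
  · intro c β h1
    rw [map_smul, LinearMap.smul_apply, Pi.smul_apply, h1, Finset.smul_sum]
    apply Finset.sum_congr rfl
    intro p _
    rw [map_smul]
    have h2 : (Polynomial.C (c • cp p w β) : Polynomial (QQ K X r)) = c • Polynomial.C (cp p w β) :=
      (Polynomial.smul_C c _).symm
    rw [h2, smul_mul_assoc, mul_smul_comm]
  · intro m hm
    have hk : m.1.toList.length + m.2.unop.toList.length = k := hm
    rw [rep_single, one_smul, cw_xy, Finset.sum_eq_single m.1.toList.length]
    · rw [cp_single, if_pos rfl, mul_assoc]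
      have : k - m.1.toList.length = m.2.unop.toList.length := by omega
      rw [this]
      rfl
    · intro p _ hp
      rw [cp_single, if_neg (Ne.symm hp), map_zero, zero_mul, mul_zero]
    · intro h
      exact absurd (Finset.mem_range.2 (by omega)) h

/-- **homogeneous elements act injectively** -/
theorem dom [NeZero r] {k : ℕ} {β : Fe K X} (hβ : β ∈ Hk K X k) (hne : rg K X r β ≠ 0)
    (f : ZMod r × ZMod r → Polynomial (QQ K X r)) (hf : rg K X r β f = 0) : f = 0 := by
  classical
  by_contra hf0
  -- the largest coefficient
  set S : Finset ℕ := (Finset.range (k + 1)).filter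
    (fun p => cp (r := r) p 0 β ≠ 0) with hS
  have hSne : S.Nonempty := by
    by_contra hS0
    rw [Finset.not_nonempty_iff_eq_empty] at hS0
    apply hne
    apply LinearMap.ext
    intro g
    funext w
    rw [rg_formula hβ]
    show _ = (0 : Polynomial (QQ K X r))
    apply Finset.sum_eq_zero
    intro p hp
    have h1 : cp (r := r) p 0 β = 0 := by
      by_contra h2
      have : p ∈ S := Finset.mem_filter.2 ⟨hp, h2⟩
      rw [hS0] at this
      exact absurd this (Finset.notMem_empty _)
    rw [cp_gs, h1, map_zero, map_zero, zero_mul, mul_zero]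
  set p := S.max' hSne with hp
  have hpS := S.max'_mem hSne
  rw [← hp, hS, Finset.mem_filter, Finset.mem_range] at hpS
  have hmax : ∀ p', p < p' → p' < k + 1 → ∀ w : ZMod r × ZMod r, cp p' w β = 0 := by
    intro p' h1 h2 w
    rw [cp_gs]
    have : cp (r := r) p' 0 β = 0 := by
      by_contra h3
      have h4 : p' ∈ S := Finset.mem_filter.2 ⟨Finset.mem_range.2 h2, h3⟩
      exact absurd (S.le_max' p' h4) (not_le.2 h1)
    rw [this, map_zero]
  -- the place of the largest degree
  obtain ⟨w1, hw1⟩ := Function.ne_iff.1 hf0
  obtain ⟨w0, hw0, hD⟩ := Finset.exists_max_image (Finset.univ.filter (fun w => f w ≠ 0))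
    (fun w => (f w).natDegree) ⟨w1, Finset.mem_filter.2 ⟨Finset.mem_univ _, hw1⟩⟩
  have hfw0 : f w0 ≠ 0 := (Finset.mem_filter.1 hw0).2
  have hD' : ∀ w, (f w).natDegree ≤ (f w0).natDegree := by
    intro w
    by_cases h : f w = 0
    · rw [h, Polynomial.natDegree_zero]
      exact Nat.zero_le _
    · exact hD w (Finset.mem_filter.2 ⟨Finset.mem_univ _, h⟩)
  set D := (f w0).natDegree with hDdef
  set w : ZMod r × ZMod r := w0 - ((p : ZMod r), ((k - p : ℕ) : ZMod r)) with hw
  have h1 : (rg K X r β f w).coeff (D + p) = 0 := by
    rw [hf]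
    rfl
  rw [rg_formula hβ, Polynomial.finsetSum_coeff, Finset.sum_eq_single p] at h1
  · rw [Polynomial.coeff_X_pow_mul, Polynomial.coeff_C_mul, hw, sub_add_cancel] at h1
    rcases mul_eq_zero.1 h1 with h2 | h2
    · rw [cp_gs] at h2
      exact hpS.2 (gs_inj _ (by rw [h2, map_zero]))
    · exact hfw0 (Polynomial.leadingCoeff_eq_zero.1 h2)
  · intro p' hp' hne'
    rcases lt_or_gt_of_ne hne' with h2 | h2
    · rw [Polynomial.coeff_X_pow_mul', if_pos (by omega), Polynomial.coeff_C_mul,
        Polynomial.coeff_eq_zero_of_natDegree_lt, mul_zero]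
      refine lt_of_le_of_lt (hD' _) ?_
      omega
    · rw [hmax p' h2 (Finset.mem_range.1 hp'), map_zero, zero_mul, mul_zero, Polynomial.coeff_zero]
  · intro h2
    exact absurd (Finset.mem_range.2 hpS.1) h2

theorem tw_delta [DecidableEq X] [NeZero r] (l u : List X) (j : ℕ) (hj : j + u.length ≤ r) :
    tw (P := K) (fun i (a : ZMod r) => if l[a.val]? = some i then 1 else 0) u (j : ZMod r) =
      if u <+: l.drop j then 1 else 0 := by
  induction u generalizing j with
  | nil => simp [tw]
  | cons i u ih =>
    rw [List.length_cons] at hj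
    have hval : ((j : ZMod r)).val = j := ZMod.val_natCast_of_lt (by omega)
    have h1 := ih (j + 1) (by omega)
    rw [Nat.cast_add, Nat.cast_one] at h1
    show (if l[((j : ZMod r)).val]? = some i then (1 : K) else 0) * _ = _
    rw [hval, h1]
    by_cases hjl : j < l.length
    · rw [List.drop_eq_getElem_cons hjl, List.getElem?_eq_getElem hjl]
      simp only [List.cons_prefix_cons, Option.some.injEq]
      by_cases e1 : (l[j]'hjl) = i
      · rw [if_pos e1, one_mul]
        simp [e1]
      · rw [if_neg e1, zero_mul, if_neg]
        rintro ⟨e2, -⟩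
        exact e1 e2.symm
    · have e1 : l.drop j = [] := List.drop_eq_nil_of_le (by omega)
      rw [List.getElem?_eq_none (by omega), e1]
      simp

/-- **elements of small degree are detected** -/
theorem inj_small [DecidableEq X] [NeZero r] {k : ℕ} (hk : k < r) {β : Fe K X} (hβ : β ∈ Hk K X k)
    (h0 : rg K X r β = 0) : β = 0 := by
  classical
  have hcp : ∀ p, p ≤ k → cp (r := r) p 0 β = 0 := by
    intro p hp
    have h1 : (rg K X r β (fun _ => 1) 0).coeff p = 0 := by
      rw [h0]
      rfl
    rw [rg_formula hβ, Polynomial.finsetSum_coeff, Finset.sum_eq_single p] at h1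
    · rw [mul_one, Polynomial.coeff_X_pow_mul', if_pos le_rfl, Nat.sub_self,
        Polynomial.coeff_C_zero] at h1
      exact h1
    · intro p' _ hp'
      rw [mul_one, Polynomial.coeff_X_pow_mul']
      split_ifs with h2
      · rw [Polynomial.coeff_C_of_ne_zero (by omega)]
      · rfl
    · intro h2
      exact absurd (Finset.mem_range.2 (by omega)) h2
  have hdeg : ∀ m0 : PW X, dg m0 ≠ k → β.coeff m0 = 0 := by
    intro m0 hm0
    refine Hk_ind (P := fun β => β.coeff m0 = 0) rfl ?_ ?_ ?_ hβ
    · intro x y hx hy
      rw [coeff_add, Finsupp.add_apply, hx, hy, add_zero]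
    · intro c x hx
      rw [coeff_smul, Finsupp.smul_apply, hx, smul_zero]
    · intro m hm
      rw [coeff_single, Finsupp.single_apply, if_neg]
      rintro rfl
      exact hm0 hm
  ext m0
  show β.coeff m0 = 0
  by_cases hm0 : dg m0 = k
  swap
  · exact hdeg m0 hm0
  set u0 := m0.1.toList with hu0
  set v0 := m0.2.unop.toList.reverse with hv0
  have hlen : u0.length + v0.length = k := by
    rw [hv0, List.length_reverse]
    exact hm0
  let κ : QQ K X r →ₐ[K] K := MvPolynomial.aeval (fun s : Bool × X × ZMod r =>
    if s.1 then (if u0[s.2.2.val]? = some s.2.1 then (1 : K) else 0)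
    else (if v0[s.2.2.val]? = some s.2.1 then (1 : K) else 0))
  have hκt : ∀ u : List X, κ (tw (tv K true) u 0) =
      tw (P := K) (fun i (a : ZMod r) => if u0[a.val]? = some i then 1 else 0) u 0 := by
    intro u
    refine (tw_map (κ : QQ K X r →+* K) (tv K true) u 0).trans ?_
    congr 1
    funext i a
    show κ (MvPolynomial.X (true, i, a)) = _
    simp only [κ, MvPolynomial.aeval_X, if_true]
  have hκf : ∀ u : List X, κ (tw (tv K false) u 0) =
      tw (P := K) (fun i (a : ZMod r) => if v0[a.val]? = some i then 1 else 0) u 0 := by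
    intro u
    refine (tw_map (κ : QQ K X r →+* K) (tv K false) u 0).trans ?_
    congr 1
    funext i a
    show κ (MvPolynomial.X (false, i, a)) = _
    simp only [κ, MvPolynomial.aeval_X, Bool.false_eq_true, if_false]
  have hd : ∀ (l u : List X), u.length = l.length → l.length ≤ r →
      tw (P := K) (fun i (a : ZMod r) => if l[a.val]? = some i then 1 else 0) u 0 =
        if u = l then 1 else 0 := by
    intro l u h1 h2
    have h3 := tw_delta (K := K) (r := r) l u 0 (by omega)
    rw [Nat.cast_zero, List.drop_zero] at h3
    rw [h3]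
    by_cases h4 : u = l
    · rw [if_pos h4, if_pos (by rw [h4])]
    · rw [if_neg h4, if_neg]
      intro h5
      exact h4 (h5.eq_of_length h1)
  have key : ∀ β ∈ Hk K X k, κ (cp u0.length 0 β) = β.coeff m0 := by
    intro β hβ
    refine Hk_ind (P := fun β => κ (cp u0.length 0 β) = β.coeff m0) ?_ ?_ ?_ ?_ hβ
    · rw [map_zero, map_zero]
      rfl
    · intro x y hx hy
      rw [map_add, map_add, coeff_add, Finsupp.add_apply, hx, hy]
    · intro c x hx
      rw [map_smul, map_smul, coeff_smul, Finsupp.smul_apply, hx]
    · intro m hm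
      have hm' : m.1.toList.length + m.2.unop.toList.length = k := hm
      rw [cp_single, coeff_single, Finsupp.single_apply]
      by_cases h1 : m.1.toList.length = u0.length
      · rw [if_pos h1]
        unfold cw
        rw [map_mul]
        have e1 := hκt m.1.toList
        have e2 := hκf m.2.unop.toList.reverse
        rw [hd u0 _ h1 (by omega)] at e1
        rw [hd v0 _ (by rw [List.length_reverse]; omega) (by omega)] at e2
        refine (congrArg₂ (· * ·) e1 e2).trans ?_
        by_cases h2 : m.1.toList = u0
        · by_cases h3 : m.2.unop.toList.reverse = v0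
          · rw [if_pos h2, if_pos h3, if_pos, one_mul]
            apply Prod.ext
            · exact FreeMonoid.toList.injective h2
            · apply MulOpposite.unop_injective
              apply FreeMonoid.toList.injective
              exact List.reverse_injective h3
          · rw [if_neg h3, mul_zero, if_neg]
            rintro rfl
            exact h3 rfl
        · rw [if_neg h2, zero_mul, if_neg]
          rintro rfl
          exact h2 rfl
      · rw [if_neg h1, map_zero, if_neg]
        rintro rfl
        exact h1 rfl
  rw [← key β hβ, hcp _ (by omega), map_zero]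

end gen

end Pool.Agent.R933.Ga
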