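import Pool.Agent.R933.Ga.Fox

/-!
# The dual derivations of an endomorphism with invertible Jacobian matrix
-/

set_option autoImplicit false
set_option linter.unusedSectionVars false
set_option linter.unusedSimpArgs false
set_option maxHeartbeats 1000000

namespace Pool.Agent.R933.Ga

open MonoidAlgebra MulOpposite

section dual

variable {K X : Type} [Field K] [DecidableEq X] [Fintype X]
variable (φ : Fa K X →ₐ[K] Fa K X) (P : Matrix X X (Fe K X))

/-- the dual derivations -/
noncomputable def dh (i : X) : Fa K X →ₗ[K] Fe K X :=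
  ∑ j, (LinearMap.mulRight K (P j i)) ∘ₗ der j

theorem dh_apply (i : X) (f : Fa K X) : dh P i f = ∑ j, der j f * P j i := by
  unfold dh
  rw [LinearMap.sum_apply]
  rfl

theorem dh_mul (i : X) (f g : Fa K X) :
    dh P i (f * g) = lf f * dh P i g + rf g * dh P i f := by
  rw [dh_apply, dh_apply, dh_apply, Finset.mul_sum, Finset.mul_sum, ← Finset.sum_add_distrib]
  apply Finset.sum_congr rfl
  intro j _
  rw [der_mul, add_mul, mul_assoc, mul_assoc]

theorem dh_one (i : X) : dh P i (1 : Fa K X) = 0 := by
  rw [dh_apply]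
  apply Finset.sum_eq_zero
  intro j _
  rw [der_one, zero_mul]

theorem dh_F (hJP : Jac φ * P = 1) (i k : X) :
    dh P i (φ (xv k)) = if k = i then 1 else 0 := by
  rw [dh_apply]
  have h1 := congrFun (congrFun hJP k) i
  rw [Matrix.mul_apply, Matrix.one_apply] at h1
  exact h1

theorem dh_J (hPJ : P * Jac φ = 1) (f : Fa K X) (l : X) :
    ∑ i, dh P i f * Jac φ i l = der l f := by
  simp only [dh_apply, Finset.sum_mul]
  rw [Finset.sum_comm]
  have h1 : ∀ j, ∑ i, der j f * P j i * Jac φ i l = der j f * (1 : Matrix X X (Fe K X)) j l := by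
    intro j
    rw [← hPJ, Matrix.mul_apply, Finset.mul_sum]
    apply Finset.sum_congr rfl
    intro i _
    rw [mul_assoc]
  simp only [h1]
  rw [Finset.sum_eq_single l]
  · rw [Matrix.one_apply_eq, mul_one]
  · intro j _ hj
    rw [Matrix.one_apply_ne hj, mul_zero]
  · intro h
    exact absurd (Finset.mem_univ _) h

/-- the right quotients -/
noncomputable def Ro (i : X) : Fa K X →ₗ[K] Fa K X := eR.toLinearMap ∘ₗ dh P i

/-- the left quotients -/
noncomputable def Lo (i : X) : Fa K X →ₗ[K] Fa K X := eL ∘ₗ dh P i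

theorem Ro_apply (i : X) (f : Fa K X) : Ro P i f = eR (dh P i f) := rfl
theorem Lo_apply (i : X) (f : Fa K X) : Lo P i f = eL (dh P i f) := rfl

theorem Ro_mul (i : X) (f g : Fa K X) : Ro P i (f * g) = f * Ro P i g + eps g • Ro P i f := by
  rw [Ro_apply, dh_mul, map_add, map_mul, map_mul, eR_lf, eR_rf, ← Algebra.smul_def]
  rfl

/-- the right expansion -/
theorem exp_right (hPJ : P * Jac φ = 1) (hε : ∀ i, eps (φ (xv i)) = 0) (f : Fa K X) :
    f = eps f • 1 + ∑ i, Ro P i f * φ (xv i) := by
  have h1 : ∀ i, φ (xv i) = ∑ l, eR (Jac φ i l) * xv l := by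
    intro i
    have h2 := fox_right (φ (xv i))
    rw [hε, zero_smul, zero_add] at h2
    exact h2
  have h3 : ∑ i, Ro P i f * φ (xv i) = ∑ l, eR (der l f) * xv l := by
    have h4 : ∀ i, Ro P i f * φ (xv i) = ∑ l, eR (dh P i f * Jac φ i l) * xv l := by
      intro i
      rw [Ro_apply, h1 i, Finset.mul_sum]
      apply Finset.sum_congr rfl
      intro l _
      rw [map_mul, mul_assoc]
    simp only [h4]
    rw [Finset.sum_comm]
    apply Finset.sum_congr rfl
    intro l _
    rw [← Finset.sum_mul, ← map_sum, dh_J φ P hPJ]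
  rw [h3]
  exact fox_right f

/-- the left expansion -/
theorem exp_left (hPJ : P * Jac φ = 1) (hε : ∀ i, eps (φ (xv i)) = 0) (f : Fa K X) :
    f = eps f • 1 + ∑ i, φ (xv i) * Lo P i f := by
  have h1 : ∀ i, φ (xv i) = ∑ l, xv l * eL (Jac φ i l) := by
    intro i
    have h2 := fox_left (φ (xv i))
    rw [hε, zero_smul, zero_add] at h2
    exact h2
  have h3 : ∑ i, φ (xv i) * Lo P i f = ∑ l, xv l * eL (der l f) := by
    have h4 : ∀ i, φ (xv i) * Lo P i f = ∑ l, xv l * eL (dh P i f * Jac φ i l) := by
      intro i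
      rw [Lo_apply, h1 i, Finset.sum_mul]
      apply Finset.sum_congr rfl
      intro l _
      rw [eL_mul, mul_assoc]
    simp only [h4]
    rw [Finset.sum_comm]
    apply Finset.sum_congr rfl
    intro l _
    rw [← Finset.mul_sum, ← map_sum, dh_J φ P hPJ]
  rw [h3]
  exact fox_left f

/-- the action of a linear map on the right factor -/
noncomputable def idT (T : Fa K X →ₗ[K] Fa K X) : Fe K X →ₗ[K] Fe K X :=
  lx (fun m => lf (single m.1 1) * rf (T (single m.2.unop 1)))

theorem idT_single (T : Fa K X →ₗ[K] Fa K X) (m : PW X) : idT T (single m 1) =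
    lf (single m.1 1) * rf (T (single m.2.unop 1)) := by
  unfold idT
  rw [lx_single, one_smul]

theorem single_lr (m : PW X) : (single m 1 : Fe K X) =
    lf (single m.1 1) * rf (single m.2.unop 1) := by
  rw [lf_single, rf_single, one_smul, one_smul]
  exact tp_decomp m

theorem idT_rf (T : Fa K X →ₗ[K] Fa K X) (c : Fa K X) : idT T (rf c) = rf (T c) := by
  refine lin_ext (f := idT T ∘ₗ rf) (g := rf ∘ₗ T) ?_ c
  intro m
  show idT T (rf (single m 1)) = rf (T (single m 1))
  have h1 : (rf (single m 1) : Fe K X) = single ((1, op m) : PW X) 1 := by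
    rw [rf_single, one_smul]
    rfl
  rw [h1, idT_single]
  show lf (single 1 1) * rf (T (single m 1)) = _
  rw [← one_def, lf_one, one_mul]

theorem lf_single_mul (u : FreeMonoid X) (m : PW X) : (lf (single u 1) : Fe K X) * single m 1 =
    single ((u * m.1, m.2) : PW X) 1 := by
  rw [lf_single, one_smul]
  unfold tp
  rw [single_mul_single, one_mul]
  congr 1
  apply Prod.ext
  · rfl
  · show op 1 * m.2 = m.2
    rw [op_one, one_mul]

theorem idT_lf0 (T : Fa K X →ₗ[K] Fa K X) (u : FreeMonoid X) (m : PW X) :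
    idT T (lf (single u 1) * single m 1) = lf (single u 1) * idT T (single m 1) := by
  rw [lf_single_mul, idT_single, idT_single, ← mul_assoc, ← lf_mul, single_mul_single, one_mul]

theorem idT_lf (T : Fa K X →ₗ[K] Fa K X) (f : Fa K X) (b : Fe K X) :
    idT T (lf f * b) = lf f * idT T b := by
  have h1 : ∀ (u : FreeMonoid X) (b : Fe K X), idT T (lf (single u 1) * b) =
      lf (single u 1) * idT T b := by
    intro u b
    induction b using MonoidAlgebra.induction_linear with
    | zero => rw [mul_zero, map_zero, mul_zero]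
    | add x y hx hy => rw [mul_add, map_add, map_add, mul_add, hx, hy]
    | single m c =>
      rw [single_smul m c, mul_smul_comm, map_smul, map_smul, mul_smul_comm, idT_lf0]
  induction f using MonoidAlgebra.induction_linear with
  | zero => rw [map_zero, zero_mul, map_zero, zero_mul]
  | add x y hx hy => rw [map_add, add_mul, map_add, hx, hy, add_mul]
  | single u c =>
    rw [single_smul u c, map_smul, smul_mul_assoc, map_smul, smul_mul_assoc, h1]

theorem idT_R0 (i : X) (g a c : Fa K X) :
    idT (Ro P i) (rf g * (lf a * rf c)) = rf (Ro P i g) * (lf a * rf c) +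
      eps g • idT (Ro P i) (lf a * rf c) := by
  have e1 : rf g * (lf a * rf c) = (lf a * rf (c * g) : Fe K X) := by
    rw [← mul_assoc, ← lr_comm, mul_assoc, rf_mul]
  have e2 : rf (Ro P i g) * (lf a * rf c) = (lf a * (rf (Ro P i g) * rf c) : Fe K X) := by
    rw [← mul_assoc, ← lr_comm, mul_assoc]
  rw [e1, e2, idT_lf, idT_lf, idT_rf, idT_rf, Ro_mul, map_add, map_smul, rf_mul, mul_add,
    mul_smul_comm]

theorem idT_R (i : X) (g : Fa K X) (b : Fe K X) :
    idT (Ro P i) (rf g * b) = rf (Ro P i g) * b + eps g • idT (Ro P i) b := by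
  induction b using MonoidAlgebra.induction_linear with
  | zero => rw [mul_zero, mul_zero, map_zero, smul_zero, add_zero]
  | add x y hx hy =>
    rw [mul_add, mul_add, map_add, map_add, hx, hy, smul_add]
    abel
  | single m c =>
    rw [single_smul, mul_smul_comm, mul_smul_comm, map_smul, map_smul, single_lr m, idT_R0,
      smul_add, smul_comm c]

/-- **the dual derivations are compatible with the right quotients** -/
theorem star (hJP : Jac φ * P = 1) (hPJ : P * Jac φ = 1) (i j : X) (f : Fa K X) :
    dh P j (Ro P i f) = idT (Ro P i) (dh P j f) := by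
  set D : Fa K X →ₗ[K] Fe K X := dh P j ∘ₗ Ro P i - idT (Ro P i) ∘ₗ dh P j with hD
  have hDa : ∀ f, D f = dh P j (Ro P i f) - idT (Ro P i) (dh P j f) := fun f => rfl
  have hDm : ∀ f g, D (f * g) = lf f * D g + eps g • D f := by
    intro f g
    rw [hDa, hDa, hDa, Ro_mul, map_add, map_smul, dh_mul, dh_mul, map_add, idT_lf, idT_R, mul_sub,
      smul_sub]
    abel
  have hR1 : Ro P i (1 : Fa K X) = 0 := by
    rw [Ro_apply, dh_one, map_zero]
  have hDF : ∀ k, D (φ (xv k)) = 0 := by
    intro k
    rw [hDa, Ro_apply, dh_F φ P hJP, dh_F φ P hJP]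
    have h1 : dh P j (eR (if k = i then (1 : Fe K X) else 0)) = 0 := by
      split_ifs
      · rw [map_one, dh_one]
      · rw [map_zero, map_zero]
    have h2 : idT (Ro P i) (if k = j then (1 : Fe K X) else 0) = 0 := by
      split_ifs
      · rw [← rf_one, idT_rf, hR1, map_zero]
      · rw [map_zero]
    rw [h1, h2, sub_zero]
  have hDx : ∀ m, D (xv m) = 0 := by
    intro m
    have h1 : ∀ k, ∑ l, lf (eR (Jac φ k l)) * D (xv l) = 0 := by
      intro k
      rw [← hDF k]
      exact (der_formula D hDm (φ (xv k))).symm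
    have h2 : ∑ k, lf (eR (P m k)) * ∑ l, lf (eR (Jac φ k l)) * D (xv l) = 0 := by
      apply Finset.sum_eq_zero
      intro k _
      rw [h1 k, mul_zero]
    have h3 : ∑ k, lf (eR (P m k)) * ∑ l, lf (eR (Jac φ k l)) * D (xv l) =
        ∑ l, lf (eR ((P * Jac φ) m l)) * D (xv l) := by
      simp only [Finset.mul_sum]
      rw [Finset.sum_comm]
      apply Finset.sum_congr rfl
      intro l _
      rw [Matrix.mul_apply, map_sum, map_sum, Finset.sum_mul]
      apply Finset.sum_congr rfl
      intro k _
      rw [map_mul, lf_mul, mul_assoc]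
    rw [h3, hPJ, Finset.sum_eq_single m] at h2
    · rw [Matrix.one_apply_eq, map_one, lf_one, one_mul] at h2
      exact h2
    · intro l _ hl
      rw [Matrix.one_apply_ne (Ne.symm hl), map_zero, map_zero, zero_mul]
    · intro h
      exact absurd (Finset.mem_univ _) h
  have hD0 : D f = 0 := by
    rw [der_formula D hDm f]
    apply Finset.sum_eq_zero
    intro l _
    rw [hDx, mul_zero]
  rw [hDa] at hD0
  exact sub_eq_zero.1 hD0

theorem eL_idT (T : Fa K X →ₗ[K] Fa K X) (b : Fe K X) : eL (idT T b) = T (eL b) := by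
  induction b using MonoidAlgebra.induction_linear with
  | zero => rw [map_zero, map_zero, map_zero]
  | add x y hx hy => rw [map_add, map_add, map_add, map_add, hx, hy]
  | single m c =>
    rw [single_smul, map_smul, map_smul, map_smul, map_smul, idT_single, eL_mul, eL_rf, eL_lf,
      eL_single, eps_single]
    split_ifs
    · rw [map_one, mul_one]
    · rw [map_zero, mul_zero, map_zero]

/-- **left and right quotients commute** -/
theorem LR_comm (hJP : Jac φ * P = 1) (hPJ : P * Jac φ = 1) (i j : X) (f : Fa K X) :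
    Lo P j (Ro P i f) = Ro P i (Lo P j f) := by
  rw [Lo_apply, star φ P hJP hPJ, eL_idT]
  rfl

end dual

end Pool.Agent.R933.Ga
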