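import Pool.Agent.R933.Ga.Dual

/-!
# The filtration of the free algebra by order
-/

set_option autoImplicit false
set_option linter.unusedSectionVars false
set_option linter.unusedSimpArgs false
set_option maxHeartbeats 1000000

namespace Pool.Agent.R933.Ga

open MonoidAlgebra MulOpposite

section fil

variable {K X : Type} [Field K] [DecidableEq X]

theorem lowA_single {m : ℕ} {w : FreeMonoid X} (h : m ≤ w.length) :
    (single w 1 : Fa K X) ∈ lowA K X m := Submodule.subset_span ⟨w, h, rfl⟩

theorem lowA_mono {s t : ℕ} (h : s ≤ t) : lowA K X t ≤ lowA K X s := by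
  apply Submodule.span_mono
  rintro b ⟨m, hm, rfl⟩
  exact ⟨m, h.trans hm, rfl⟩

theorem lowA_zero (f : Fa K X) : f ∈ lowA K X 0 := by
  induction f using MonoidAlgebra.induction_linear with
  | zero => exact Submodule.zero_mem _
  | add x y hx hy => exact Submodule.add_mem _ hx hy
  | single m c =>
    rw [single_smul m c]
    exact Submodule.smul_mem _ _ (lowA_single (Nat.zero_le _))

theorem lowA_mul {s t : ℕ} {f g : Fa K X} (hf : f ∈ lowA K X s) (hg : g ∈ lowA K X t) :
    f * g ∈ lowA K X (s + t) := by
  unfold lowA at hf
  induction hf using Submodule.span_induction with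
  | mem x hx =>
    obtain ⟨w, hw, rfl⟩ := hx
    unfold lowA at hg
    induction hg using Submodule.span_induction with
    | mem y hy =>
      obtain ⟨v, hv, rfl⟩ := hy
      rw [single_mul_single, one_mul]
      apply lowA_single
      rw [FreeMonoid.length_mul]
      omega
    | zero => rw [mul_zero]; exact Submodule.zero_mem _
    | add x y _ _ hx hy => rw [mul_add]; exact Submodule.add_mem _ hx hy
    | smul c x _ hx => rw [mul_smul_comm]; exact Submodule.smul_mem _ _ hx
  | zero => rw [zero_mul]; exact Submodule.zero_mem _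
  | add x y _ _ hx hy => rw [add_mul]; exact Submodule.add_mem _ hx hy
  | smul c x _ hx => rw [smul_mul_assoc]; exact Submodule.smul_mem _ _ hx

theorem lowA_coeff {s : ℕ} {f : Fa K X} (hf : f ∈ lowA K X s) {w : FreeMonoid X}
    (hw : w.length < s) : f.coeff w = 0 := by
  classical
  unfold lowA at hf
  induction hf using Submodule.span_induction with
  | mem x hx =>
    obtain ⟨v, hv, rfl⟩ := hx
    rw [coeff_single, Finsupp.single_apply, if_neg]
    rintro rfl
    omega
  | zero => rfl
  | add x y _ _ hx hy => rw [coeff_add, Finsupp.add_apply, hx, hy, add_zero]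
  | smul c x _ hx => rw [coeff_smul, Finsupp.smul_apply, hx, smul_zero]

theorem lowA_inf {f : Fa K X} (h : ∀ k, f ∈ lowA K X k) : f = 0 := by
  have h1 : f.coeff = 0 := by
    apply Finsupp.ext
    intro w
    exact lowA_coeff (h (w.length + 1)) (Nat.lt_succ_self _)
  exact MonoidAlgebra.coeff_injective h1

theorem eps_low {f : Fa K X} (h : eps f = 0) : f ∈ lowA K X 1 := by
  have key : ∀ f : Fa K X, f - algebraMap K (Fa K X) (eps f) ∈ lowA K X 1 := by
    intro f
    induction f using MonoidAlgebra.induction_linear with
    | zero => rw [map_zero, map_zero, sub_zero]; exact Submodule.zero_mem _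
    | add x y hx hy =>
      have e : x + y - algebraMap K (Fa K X) (eps (x + y)) =
          (x - algebraMap K (Fa K X) (eps x)) + (y - algebraMap K (Fa K X) (eps y)) := by
        rw [map_add, map_add]
        abel
      rw [e]
      exact Submodule.add_mem _ hx hy
    | single m c =>
      have e : (single m c : Fa K X) - algebraMap K (Fa K X) (eps (single m c)) =
          c • ((single m 1 : Fa K X) - algebraMap K (Fa K X) (eps (single m 1))) := by
        rw [single_smul m c, map_smul, smul_eq_mul, map_mul, smul_sub, ← Algebra.smul_def]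
      rw [e]
      apply Submodule.smul_mem
      rw [eps_single]
      split_ifs with h0
      · have : m = 1 := FreeMonoid.length_eq_zero.1 h0
        rw [this, map_one, ← one_def, sub_self]
        exact Submodule.zero_mem _
      · rw [map_zero, sub_zero]
        apply lowA_single
        omega
  have h1 := key f
  rw [h, map_zero, sub_zero] at h1
  exact h1

theorem low_eps {f : Fa K X} (h : f ∈ lowA K X 1) : eps f = 0 := by
  unfold lowA at h
  induction h using Submodule.span_induction with
  | mem x hx =>
    obtain ⟨v, hv, rfl⟩ := hx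
    rw [eps_single, if_neg]
    omega
  | zero => rw [map_zero]
  | add x y _ _ hx hy => rw [map_add, hx, hy, add_zero]
  | smul c x _ hx => rw [map_smul, hx, smul_zero]

theorem alg_ext {f g : Fa K X →ₐ[K] Fa K X} (h : ∀ i, f (xv i) = g (xv i)) : f = g := by
  apply AlgHom.ext
  intro a
  refine word_ext (f := f.toLinearMap) (g := g.toLinearMap) ?_ ?_ a
  · show f 1 = g 1
    rw [map_one, map_one]
  · intro x a ha
    have ha' : f a = g a := ha
    show f (xv x * a) = g (xv x * a)
    rw [map_mul, map_mul, ha', h]

theorem alg_eps {f g : Fa K X →ₐ[K] K} (h : ∀ i, f (xv i) = g (xv i)) : f = g := by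
  apply AlgHom.ext
  intro a
  refine word_ext (f := f.toLinearMap) (g := g.toLinearMap) ?_ ?_ a
  · show f 1 = g 1
    rw [map_one, map_one]
  · intro x a ha
    have ha' : f a = g a := ha
    show f (xv x * a) = g (xv x * a)
    rw [map_mul, map_mul, ha', h]

/-- endomorphisms preserving the augmentation preserve the filtration -/
theorem low_map (θ : Fa K X →ₐ[K] Fa K X) (hθ : ∀ i, θ (xv i) ∈ lowA K X 1) {m : ℕ} {f : Fa K X}
    (hf : f ∈ lowA K X m) : θ f ∈ lowA K X m := by
  have hw : ∀ w : List X, θ (single (FreeMonoid.ofList w) 1) ∈ lowA K X w.length := by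
    intro w
    induction w with
    | nil => exact lowA_zero _
    | cons x w ih =>
      rw [word_cons, map_mul, List.length_cons, add_comm]
      exact lowA_mul (hθ x) ih
  unfold lowA at hf
  induction hf using Submodule.span_induction with
  | mem x hx =>
    obtain ⟨v, hv, rfl⟩ := hx
    exact lowA_mono hv (hw v.toList)
  | zero => rw [map_zero]; exact Submodule.zero_mem _
  | add x y _ _ hx hy => rw [map_add]; exact Submodule.add_mem _ hx hy
  | smul c x _ hx => rw [map_smul]; exact Submodule.smul_mem _ _ hx

theorem psi_word (ψ : Fa K X →ₐ[K] Fa K X) {m : ℕ}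
    (hψ : ∀ i, ψ (xv i) - xv i ∈ lowA K X (m + 1)) (w : List X) :
    ψ (single (FreeMonoid.ofList w) 1) - single (FreeMonoid.ofList w) 1 ∈
      lowA K X (w.length + m) := by
  induction w with
  | nil =>
    have : (single (FreeMonoid.ofList ([] : List X)) 1 : Fa K X) = 1 := rfl
    rw [this, map_one, sub_self]
    exact Submodule.zero_mem _
  | cons x w ih =>
    have h1 : ψ (xv x) ∈ lowA K X 1 := by
      have e : ψ (xv x) = (ψ (xv x) - xv x) + xv x := by abel
      rw [e]
      apply Submodule.add_mem
      · exact lowA_mono (by omega) (hψ x)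
      · exact lowA_single (by rw [FreeMonoid.length_of])
    have e : ψ (xv x * single (FreeMonoid.ofList w) 1) - xv x * single (FreeMonoid.ofList w) 1 =
        ψ (xv x) * (ψ (single (FreeMonoid.ofList w) 1) - single (FreeMonoid.ofList w) 1) +
          (ψ (xv x) - xv x) * single (FreeMonoid.ofList w) 1 := by
      rw [map_mul, mul_sub, sub_mul]
      abel
    rw [word_cons, e, List.length_cons]
    apply Submodule.add_mem
    · have := lowA_mul h1 ih
      rw [show w.length + 1 + m = 1 + (w.length + m) by omega]
      exact this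
    · have h2 : (single (FreeMonoid.ofList w) 1 : Fa K X) ∈ lowA K X w.length :=
        lowA_single (le_refl _)
      have := lowA_mul (hψ x) h2
      rw [show w.length + 1 + m = (m + 1) + w.length by omega]
      exact this

theorem psi_low (ψ : Fa K X →ₐ[K] Fa K X) {m : ℕ}
    (hψ : ∀ i, ψ (xv i) - xv i ∈ lowA K X (m + 1)) {k : ℕ} {f : Fa K X} (hf : f ∈ lowA K X k) :
    ψ f - f ∈ lowA K X (k + m) := by
  unfold lowA at hf
  induction hf using Submodule.span_induction with
  | mem x hx =>
    obtain ⟨v, hv, rfl⟩ := hx
    refine lowA_mono ?_ (psi_word ψ hψ v.toList)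
    have : v.toList.length = v.length := rfl
    omega
  | zero => rw [map_zero, sub_zero]; exact Submodule.zero_mem _
  | add x y _ _ hx hy =>
    rw [map_add, add_sub_add_comm]; exact Submodule.add_mem _ hx hy
  | smul c x _ hx => rw [map_smul, ← smul_sub]; exact Submodule.smul_mem _ _ hx

theorem psi_inj (ψ : Fa K X →ₐ[K] Fa K X)
    (hψ : ∀ i, ψ (xv i) - xv i ∈ lowA K X 2) : Function.Injective ψ := by
  rw [injective_iff_map_eq_zero]
  intro f hf
  apply lowA_inf
  intro k
  induction k with
  | zero => exact lowA_zero f
  | succ k ih =>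
    have h1 := psi_low (m := 1) ψ hψ ih
    rw [hf, zero_sub] at h1
    have h2 := Submodule.neg_mem _ h1
    rwa [neg_neg] at h2

end fil

section good

variable {K X : Type} [Field K] [DecidableEq X] [Fintype X]

/-- good endomorphisms are injective -/
theorem good_inj {φ : Fa K X →ₐ[K] Fa K X} (h : Good φ) : Function.Injective φ := by
  obtain ⟨ψ, α, rfl, hψ⟩ := h 2 (by omega)
  have h1 := psi_inj ψ hψ
  exact h1.comp α.injective

end good

section rw

variable {K X : Type} [Field K] [DecidableEq X] [Fintype X]
variable (φ : Fa K X →ₐ[K] Fa K X) (P : Matrix X X (Fe K X))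

/-- iterated right quotients -/
noncomputable def Rw : List X → (Fa K X →ₗ[K] Fa K X)
  | [] => LinearMap.id
  | i :: w => Ro P i ∘ₗ Rw w

theorem Rw_nil (f : Fa K X) : Rw P [] f = f := rfl
theorem Rw_cons (i : X) (w : List X) (f : Fa K X) : Rw P (i :: w) f = Ro P i (Rw P w f) := rfl

theorem idT_id (b : Fe K X) : idT LinearMap.id b = b := by
  induction b using MonoidAlgebra.induction_linear with
  | zero => rw [map_zero]
  | add x y hx hy => rw [map_add, hx, hy]
  | single m c =>
    rw [single_smul m c, map_smul, idT_single, LinearMap.id_apply, ← single_lr]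

theorem idT_comp (S T : Fa K X →ₗ[K] Fa K X) (b : Fe K X) : idT S (idT T b) = idT (S ∘ₗ T) b := by
  induction b using MonoidAlgebra.induction_linear with
  | zero => rw [map_zero, map_zero, map_zero]
  | add x y hx hy => rw [map_add, map_add, map_add, hx, hy]
  | single m c =>
    rw [single_smul m c, map_smul, map_smul, map_smul, idT_single, idT_single, idT_lf, idT_rf,
      LinearMap.comp_apply]

theorem star_w (hJP : Jac φ * P = 1) (hPJ : P * Jac φ = 1) (j : X) (w : List X) (f : Fa K X) :
    dh P j (Rw P w f) = idT (Rw P w) (dh P j f) := by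
  induction w with
  | nil =>
    show dh P j f = idT LinearMap.id (dh P j f)
    rw [idT_id]
  | cons i w ih =>
    rw [Rw_cons, star φ P hJP hPJ, ih, idT_comp]
    rfl

/-- elements of degree at most `D` -/
noncomputable def dgA (K X : Type) [Field K] (D : ℕ) : Submodule K (Fa K X) :=
  Submodule.span K ((fun w : FreeMonoid X => (single w 1 : Fa K X)) '' {w | w.length ≤ D})

theorem dgA_finite (D : ℕ) : FiniteDimensional K (dgA K X D) := by
  apply FiniteDimensional.span_of_finite
  apply Set.Finite.image
  exact List.finite_length_le X D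

theorem dgA_mono {s t : ℕ} (h : s ≤ t) : dgA K X s ≤ dgA K X t := by
  apply Submodule.span_mono
  apply Set.image_mono
  intro w hw
  exact le_trans hw h

theorem eR_idT_bound (b : Fe K X) : ∃ D, ∀ T, eR (idT T b) ∈ dgA K X D := by
  induction b using MonoidAlgebra.induction_linear with
  | zero =>
    refine ⟨0, fun T => ?_⟩
    rw [map_zero, map_zero]
    exact Submodule.zero_mem _
  | add x y hx hy =>
    obtain ⟨D1, h1⟩ := hx
    obtain ⟨D2, h2⟩ := hy
    refine ⟨max D1 D2, fun T => ?_⟩
    rw [map_add, map_add]
    exact Submodule.add_mem _ (dgA_mono (le_max_left _ _) (h1 T))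
      (dgA_mono (le_max_right _ _) (h2 T))
  | single m c =>
    refine ⟨m.1.length, fun T => ?_⟩
    rw [single_smul m c, map_smul, map_smul, idT_single, map_mul, eR_lf, eR_rf,
      ← Algebra.commutes, ← Algebra.smul_def]
    apply Submodule.smul_mem
    apply Submodule.smul_mem
    exact Submodule.subset_span ⟨m.1, le_refl m.1.length, rfl⟩

/-- the space of all iterated right quotients of the variables -/
noncomputable def Cs : Submodule K (Fa K X) :=
  Submodule.span K (Set.range (fun p : List X × X => Rw P p.1 (xv p.2)))

theorem Cs_xv (l : X) : xv l ∈ Cs P := Submodule.subset_span ⟨([], l), rfl⟩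

theorem Cs_Ro (i : X) {f : Fa K X} (hf : f ∈ Cs P) : Ro P i f ∈ Cs P := by
  unfold Cs at hf
  induction hf using Submodule.span_induction with
  | mem x hx =>
    obtain ⟨⟨w, l⟩, rfl⟩ := hx
    exact Submodule.subset_span ⟨(i :: w, l), rfl⟩
  | zero => rw [map_zero]; exact Submodule.zero_mem _
  | add x y _ _ hx hy => rw [map_add]; exact Submodule.add_mem _ hx hy
  | smul c x _ hx => rw [map_smul]; exact Submodule.smul_mem _ _ hx

theorem Cs_finite (hJP : Jac φ * P = 1) (hPJ : P * Jac φ = 1) : FiniteDimensional K (Cs P) := by
  choose D hD using fun b : Fe K X => eR_idT_bound b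
  let D0 : ℕ := (Finset.univ.sup fun p : X × X => D (dh P p.1 (xv p.2))) + 1
  have h1 : Cs P ≤ dgA K X D0 := by
    apply Submodule.span_le.2
    rintro x ⟨⟨w, l⟩, rfl⟩
    rcases w with _ | ⟨j, w⟩
    · show xv l ∈ dgA K X D0
      exact Submodule.subset_span ⟨FreeMonoid.of l, by
        show (FreeMonoid.of l).length ≤ D0
        rw [FreeMonoid.length_of]
        exact Nat.le_add_left 1 _, rfl⟩
    · show Rw P (j :: w) (xv l) ∈ dgA K X D0
      rw [Rw_cons, Ro_apply, star_w φ P hJP hPJ]
      refine dgA_mono ?_ (hD (dh P j (xv l)) (Rw P w))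
      have := Finset.le_sup (f := fun p : X × X => D (dh P p.1 (xv p.2))) (Finset.mem_univ (j, l))
      exact this.trans (Nat.le_succ _)
  have := dgA_finite (K := K) (X := X) D0
  exact Submodule.finiteDimensional_of_le h1

end rw

end Pool.Agent.R933.Ga
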