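import Pool.Agent.R933.Ga.Fil

/-!
# Good endomorphisms are automorphisms
-/

set_option autoImplicit false
set_option linter.unusedSectionVars false
set_option linter.unusedSimpArgs false
set_option maxHeartbeats 1000000

namespace Pool.Agent.R933.Ga

open MonoidAlgebra MulOpposite

section fin

variable {K X : Type} [Field K] [DecidableEq X] [Fintype X]
variable (φ : Fa K X →ₐ[K] Fa K X) (P : Matrix X X (Fe K X))

/-- maps commuting with all right quotients -/
def Cm (Λ : Fa K X →ₗ[K] Fa K X) : Prop := ∀ i f, Λ (Ro P i f) = Ro P i (Λ f)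

/-- **separation** -/
theorem sep (hJP : Jac φ * P = 1) (hPJ : P * Jac φ = 1) (hε : ∀ i, eps (φ (xv i)) = 0)
    (f : Fa K X) (h : ∀ Λ, Cm P Λ → eps (Λ f) = 0) : f = 0 := by
  have key : ∀ k, ∀ f : Fa K X, (∀ Λ, Cm P Λ → eps (Λ f) = 0) → f ∈ lowA K X k := by
    intro k
    induction k with
    | zero => intro f _; exact lowA_zero f
    | succ k ih =>
      intro f hf
      have h0 : eps f = 0 := hf LinearMap.id (fun i f => rfl)
      rw [exp_left φ P hPJ hε f, h0, zero_smul, zero_add]
      apply Submodule.sum_mem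
      intro i _
      rw [add_comm k 1]
      apply lowA_mul (eps_low (hε i))
      apply ih
      intro Λ hΛ
      apply hf (Λ ∘ₗ Lo P i)
      intro j g
      show Λ (Lo P i (Ro P j g)) = Ro P j (Λ (Lo P i g))
      rw [LR_comm φ P hJP hPJ, hΛ]
  exact lowA_inf fun k => key k f h

/-- the functionals which come from commuting maps -/
def Mf : Submodule K (Module.Dual K (Cs P)) where
  carrier := {μ | ∃ Λ, Cm P Λ ∧ ∀ f : Cs P, μ f = eps (Λ (f : Fa K X))}
  zero_mem' := ⟨0, fun i f => by
    rw [LinearMap.zero_apply, LinearMap.zero_apply, map_zero], fun f => by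
    rw [LinearMap.zero_apply, LinearMap.zero_apply, map_zero]⟩
  add_mem' := by
    rintro μ ν ⟨Λ, h1, h2⟩ ⟨Λ', h3, h4⟩
    refine ⟨Λ + Λ', fun i f => ?_, fun f => ?_⟩
    · rw [LinearMap.add_apply, LinearMap.add_apply, map_add, h1, h3]
    · rw [LinearMap.add_apply, LinearMap.add_apply, map_add, h2, h4]
  smul_mem' := by
    rintro c μ ⟨Λ, h1, h2⟩
    refine ⟨c • Λ, fun i f => ?_, fun f => ?_⟩
    · rw [LinearMap.smul_apply, LinearMap.smul_apply, map_smul, h1]
    · rw [LinearMap.smul_apply, LinearMap.smul_apply, map_smul, h2]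

theorem Mf_top (hJP : Jac φ * P = 1) (hPJ : P * Jac φ = 1) (hε : ∀ i, eps (φ (xv i)) = 0) :
    Mf P = ⊤ := by
  have hfin := Cs_finite φ P hJP hPJ
  have h1 : (Mf P).dualCoannihilator = ⊥ := by
    rw [Submodule.eq_bot_iff]
    intro f hf
    rw [Submodule.mem_dualCoannihilator] at hf
    apply Subtype.ext
    apply sep φ P hJP hPJ hε
    intro Λ hΛ
    exact hf ((eps.toLinearMap ∘ₗ Λ) ∘ₗ (Cs P).subtype) ⟨Λ, hΛ, fun g => rfl⟩
  have h2 := Subspace.dualCoannihilator_dualAnnihilator_eq (W := Mf P)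
  rw [h1, Submodule.dualAnnihilator_bot] at h2
  exact h2.symm

/-- `a ↦ a ⊗ 1` -/
noncomputable def lfR : Fa K X →+* Fe K X where
  toFun := lf
  map_one' := lf_one
  map_mul' := lf_mul
  map_zero' := map_zero _
  map_add' := map_add _

theorem lf_low {m : ℕ} {f : Fa K X} (hf : f ∈ lowA K X m) : lf f ∈ Low K X m := by
  unfold lowA at hf
  induction hf using Submodule.span_induction with
  | mem x hx =>
    obtain ⟨v, hv, rfl⟩ := hx
    rw [lf_single, one_smul]
    apply Low_single
    show m ≤ v.length + 0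
    omega
  | zero => rw [map_zero]; exact Submodule.zero_mem _
  | add x y _ _ hx hy => rw [map_add]; exact Submodule.add_mem _ hx hy
  | smul c x _ hx => rw [map_smul]; exact Submodule.smul_mem _ _ hx

theorem surj_of_vars (hx : ∀ l, xv l ∈ φ.range) : Function.Surjective φ := by
  have hw : ∀ w : List X, (single (FreeMonoid.ofList w) 1 : Fa K X) ∈ φ.range := by
    intro w
    induction w with
    | nil => exact φ.range.one_mem
    | cons x w ih =>
      rw [word_cons]
      exact φ.range.mul_mem (hx x) ih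
  intro f
  have h1 : f ∈ φ.range := by
    induction f using MonoidAlgebra.induction_linear with
    | zero => exact φ.range.zero_mem
    | add x y hx hy => exact φ.range.add_mem hx hy
    | single m c =>
      rw [single_smul m c]
      exact φ.range.smul_mem (hw m.toList) c
  exact h1

/-- **the variables are in the image** -/
theorem surj0 (hJP : Jac φ * P = 1) (hPJ : P * Jac φ = 1) (hε : ∀ i, eps (φ (xv i)) = 0)
    (hg : Good φ) : Function.Surjective φ := by
  classical
  have hfin := Cs_finite φ P hJP hPJ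
  let b := Module.finBasis K (Cs P)
  let n : X → Fin (Module.finrank K (Cs P)) → Fin (Module.finrank K (Cs P)) → K :=
    fun i γ α => b.repr ⟨Ro P i (b α : Fa K X), Cs_Ro P i (b α).2⟩ γ
  have hn : ∀ i α, Ro P i (b α : Fa K X) = ∑ γ, n i γ α • (b γ : Fa K X) := by
    intro i α
    have h1 := b.sum_repr ⟨Ro P i (b α : Fa K X), Cs_Ro P i (b α).2⟩
    have h2 := congrArg (Subtype.val) h1
    rw [Submodule.coe_sum] at h2
    exact h2.symm
  -- the matrices
  let U0 : Matrix (Fin (Module.finrank K (Cs P))) (Fin (Module.finrank K (Cs P))) (Fa K X) :=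
    Matrix.of fun γ α => (1 : Matrix _ _ (Fa K X)) γ α - ∑ i, n i γ α • xv i
  have hU0 : ∀ (θ : Fa K X →ₐ[K] Fa K X) γ α, (U0.map θ) γ α =
      (1 : Matrix _ _ (Fa K X)) γ α - ∑ i, n i γ α • θ (xv i) := by
    intro θ γ α
    show θ ((1 : Matrix _ _ (Fa K X)) γ α - ∑ i, n i γ α • xv i) = _
    rw [map_sub, map_sum]
    congr 1
    · rw [Matrix.one_apply]
      split_ifs
      · rw [map_one]
      · rw [map_zero]
    · apply Finset.sum_congr rfl
      intro i _
      rw [map_smul]
  have hΛU : ∀ Λ, Cm P Λ → ∀ α, ∑ γ, Λ (b γ : Fa K X) * (U0.map φ) γ α =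
      eps (Λ (b α : Fa K X)) • (1 : Fa K X) := by
    intro Λ hΛ α
    simp only [hU0, mul_sub, Finset.sum_sub_distrib]
    have e1 : ∑ γ, Λ (b γ : Fa K X) * (1 : Matrix _ _ (Fa K X)) γ α = Λ (b α : Fa K X) := by
      rw [Finset.sum_eq_single α]
      · rw [Matrix.one_apply_eq, mul_one]
      · intro γ _ hγ
        rw [Matrix.one_apply_ne hγ, mul_zero]
      · intro h
        exact absurd (Finset.mem_univ _) h
    have e2 : ∑ γ, Λ (b γ : Fa K X) * ∑ i, n i γ α • φ (xv i) =
        ∑ i, Ro P i (Λ (b α : Fa K X)) * φ (xv i) := by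
      simp only [Finset.mul_sum]
      rw [Finset.sum_comm]
      apply Finset.sum_congr rfl
      intro i _
      rw [← hΛ, hn, map_sum, Finset.sum_mul]
      apply Finset.sum_congr rfl
      intro γ _
      rw [map_smul, mul_smul_comm, smul_mul_assoc]
    rw [e1, e2, sub_eq_iff_eq_add]
    exact exp_right φ P hPJ hε _
  -- the left inverse
  have hex : ∀ β, ∃ Λ, Cm P Λ ∧ ∀ α, eps (Λ (b α : Fa K X)) = if β = α then 1 else 0 := by
    intro β
    have h1 : b.coord β ∈ Mf P := by
      rw [Mf_top φ P hJP hPJ hε]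
      exact Submodule.mem_top
    obtain ⟨Λ, h2, h3⟩ := h1
    refine ⟨Λ, h2, fun α => ?_⟩
    rw [← h3, Module.Basis.coord_apply, Module.Basis.repr_self, Finsupp.single_apply]
    simp only [eq_comm]
  choose Λ hΛ1 hΛ2 using hex
  let W : Matrix (Fin (Module.finrank K (Cs P))) (Fin (Module.finrank K (Cs P))) (Fa K X) :=
    Matrix.of fun β α => Λ β (b α : Fa K X)
  have hWU : W * U0.map φ = 1 := by
    ext1 β α
    rw [Matrix.mul_apply]
    show ∑ γ, Λ β (b γ : Fa K X) * (U0.map φ) γ α = _
    rw [hΛU (Λ β) (hΛ1 β), hΛ2, Matrix.one_apply]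
    split_ifs
    · rw [one_smul]
    · rw [zero_smul]
  -- the matrix over the enveloping algebra
  have hlim : Lim (U0.map (lfR : Fa K X →+* Fe K X)) := by
    intro m
    obtain ⟨ψ, α, hφ, hψ⟩ := hg (m + 1) (by omega)
    have hψε : ∀ f, eps (ψ f) = eps f := by
      have h1 : ((eps : Fa K X →ₐ[K] K).comp ψ) = eps := by
        apply alg_eps
        intro i
        show eps (ψ (xv i)) = eps (xv i)
        have h2 := low_eps (lowA_mono (by omega : 1 ≤ m + 1) (hψ i))
        rw [map_sub, sub_eq_zero] at h2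
        exact h2
      intro f
      exact DFunLike.congr_fun h1 f
    have hφa : ∀ f, φ f = ψ (α f) := by
      intro f
      rw [hφ]
      rfl
    have hαε : ∀ i, eps (α (xv i)) = 0 := by
      intro i
      rw [← hψε, ← hφa, hε]
    have hα0 : ∀ f, eps (α f) = eps f := by
      have h1 : ((eps : Fa K X →ₐ[K] K).comp (α : Fa K X →ₐ[K] Fa K X)) = eps := by
        apply alg_eps
        intro i
        show eps (α (xv i)) = eps (xv i)
        rw [hαε, eps_xv]
      intro f
      exact DFunLike.congr_fun h1 f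
    have hαs : ∀ i, α.symm (xv i) ∈ lowA K X 1 := by
      intro i
      apply eps_low
      rw [← hα0, α.apply_symm_apply, eps_xv]
    let θ : Fa K X →ₐ[K] Fa K X := (α.symm : Fa K X →ₐ[K] Fa K X).comp φ
    have hθ : ∀ i, θ (xv i) - xv i ∈ lowA K X (m + 1) := by
      intro i
      have h1 : θ (xv i) - xv i = α.symm (ψ (α (xv i)) - α (xv i)) := by
        rw [map_sub, α.symm_apply_apply, ← hφa]
        rfl
      rw [h1]
      have h2 := psi_low (m := m) ψ hψ (eps_low (hαε i))
      rw [add_comm] at h2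
      exact low_map (α.symm : Fa K X →ₐ[K] Fa K X) hαs h2
    have hBH : W.map (α.symm : Fa K X →ₐ[K] Fa K X) * U0.map θ = 1 := by
      have h1 : (W * U0.map φ).map (α.symm : Fa K X →ₐ[K] Fa K X) = 1 := by
        rw [hWU]
        exact Matrix.map_one _ (map_zero _) (map_one _)
      rw [Matrix.map_mul] at h1
      exact h1
    have hN' : ∀ γ α, (U0 - U0.map θ) γ α ∈ lowA K X (m + 1) := by
      intro γ α
      have h1 : (U0 - U0.map θ) γ α = ∑ i, n i γ α • (θ (xv i) - xv i) := by
        rw [Matrix.sub_apply, hU0]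
        simp only [smul_sub, Finset.sum_sub_distrib]
        show ((1 : Matrix _ _ (Fa K X)) γ α - ∑ i, n i γ α • xv i) - _ = _
        abel
      rw [h1]
      apply Submodule.sum_mem
      intro i _
      exact Submodule.smul_mem _ _ (hθ i)
    refine ⟨(U0.map θ).map (lfR : Fa K X →+* Fe K X),
      (W.map (α.symm : Fa K X →ₐ[K] Fa K X)).map (lfR : Fa K X →+* Fe K X),
      ((U0 - U0.map θ) * W.map (α.symm : Fa K X →ₐ[K] Fa K X)).map (lfR : Fa K X →+* Fe K X),
      ?_, ?_, Or.inr ?_⟩
    · rw [← Matrix.map_mul, hBH]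
      exact Matrix.map_one _ (map_zero _) (map_one _)
    · intro i j
      apply lf_low
      rw [Matrix.mul_apply]
      apply Submodule.sum_mem
      intro k _
      have := lowA_mul (hN' i k) (lowA_zero ((W.map (α.symm : Fa K X →ₐ[K] Fa K X)) k j))
      exact this
    · have h1 : U0 = (1 + (U0 - U0.map θ) * W.map (α.symm : Fa K X →ₐ[K] Fa K X)) *
          U0.map θ := by
        rw [add_mul, one_mul, mul_assoc, hBH, mul_one]
        abel
      have h2 : (1 + (U0 - U0.map θ) * W.map (α.symm : Fa K X →ₐ[K] Fa K X)).map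
          (lfR : Fa K X →+* Fe K X) = 1 + ((U0 - U0.map θ) *
          W.map (α.symm : Fa K X →ₐ[K] Fa K X)).map (lfR : Fa K X →+* Fe K X) := by
        rw [Matrix.map_add _ (map_add _)]
        congr 1
        exact Matrix.map_one _ (map_zero _) (map_one _)
      rw [← h2, ← Matrix.map_mul, ← h1]
  have hU0u : IsUnit U0 := by
    have h1 := (closed hlim).map ((eR (K := K) (X := X)).toRingHom.mapMatrix
      (m := Fin (Module.finrank K (Cs P))))
    have h2 : ((eR (K := K) (X := X)).toRingHom.mapMatrix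
      (m := Fin (Module.finrank K (Cs P)))) (U0.map (lfR : Fa K X →+* Fe K X)) = U0 := by
      ext1 i j
      exact eR_lf (U0 i j)
    rw [h2] at h1
    exact h1
  obtain ⟨W0, hW0⟩ := hU0u.exists_right_inv
  have hUW : U0.map φ * W0.map φ = 1 := by
    rw [← Matrix.map_mul, hW0]
    exact Matrix.map_one _ (map_zero _) (map_one _)
  have hb : ∀ β, (b β : Fa K X) ∈ φ.range := by
    intro β
    refine ⟨∑ α, eps (b α : Fa K X) • W0 α β, ?_⟩
    show φ (∑ α, eps (b α : Fa K X) • W0 α β) = (b β : Fa K X)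
    have h1 : (b β : Fa K X) = ∑ γ, (b γ : Fa K X) * (U0.map φ * W0.map φ) γ β := by
      rw [hUW, Finset.sum_eq_single β]
      · rw [Matrix.one_apply_eq, mul_one]
      · intro γ _ hγ
        rw [Matrix.one_apply_ne hγ, mul_zero]
      · intro h
        exact absurd (Finset.mem_univ _) h
    rw [h1]
    simp only [Matrix.mul_apply, Finset.mul_sum]
    rw [Finset.sum_comm, map_sum]
    apply Finset.sum_congr rfl
    intro α _
    have h2 := hΛU LinearMap.id (fun i f => rfl) α
    simp only [LinearMap.id_apply] at h2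
    simp only [← mul_assoc]
    rw [← Finset.sum_mul, h2, map_smul, smul_mul_assoc, one_mul]
    rfl
  have hx : ∀ l, xv l ∈ φ.range := by
    intro l
    have h1 := b.sum_repr ⟨xv l, Cs_xv P l⟩
    have h2 := congrArg (Subtype.val) h1
    rw [Submodule.coe_sum] at h2
    have h3 : (xv l : Fa K X) = ∑ β, b.repr ⟨xv l, Cs_xv P l⟩ β • (b β : Fa K X) := h2.symm
    rw [h3]
    apply Subalgebra.sum_mem
    intro β _
    exact Subalgebra.smul_mem _ (hb β) _
  exact surj_of_vars φ hx

end fin

section tr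

variable {K X : Type} [Field K] [DecidableEq X] [Fintype X]

/-- translations -/
noncomputable def tau (a : X → K) : Fa K X →ₐ[K] Fa K X :=
  MonoidAlgebra.lift K (Fa K X) (FreeMonoid X)
    (FreeMonoid.lift fun i => xv i + algebraMap K (Fa K X) (a i))

theorem tau_xv (a : X → K) (i : X) : tau a (xv i) = xv i + algebraMap K (Fa K X) (a i) := by
  unfold tau
  show MonoidAlgebra.lift K (Fa K X) (FreeMonoid X)
    (FreeMonoid.lift fun i => xv i + algebraMap K (Fa K X) (a i)) (single (FreeMonoid.of i) 1) = _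
  rw [MonoidAlgebra.lift_single, one_smul, FreeMonoid.lift_eval_of]

theorem tau_comp (a b : X → K) (h : ∀ i, a i + b i = 0) :
    (tau a).comp (tau b) = AlgHom.id K (Fa K X) := by
  apply alg_ext
  intro i
  show tau a (tau b (xv i)) = xv i
  rw [tau_xv, map_add, tau_xv, AlgHom.commutes, add_assoc, ← map_add, h, map_zero, add_zero]

/-- the translations as automorphisms -/
noncomputable def tauE (a : X → K) : Fa K X ≃ₐ[K] Fa K X :=
  AlgEquiv.ofAlgHom (tau a) (tau fun i => - a i) (tau_comp _ _ fun i => add_neg_cancel _)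
    (tau_comp _ _ fun i => neg_add_cancel _)

theorem tauE_apply (a : X → K) (f : Fa K X) : tauE a f = tau a f := rfl

/-- **every good endomorphism is an automorphism** -/
theorem good_bij {φ : Fa K X →ₐ[K] Fa K X} (hg : Good φ) : Function.Bijective φ := by
  refine ⟨good_inj hg, ?_⟩
  let a : X → K := fun i => - eps (φ (xv i))
  let φ' : Fa K X →ₐ[K] Fa K X := φ.comp (tauE a : Fa K X →ₐ[K] Fa K X)
  have hg' : Good φ' := by
    intro m hm
    obtain ⟨ψ, α, h1, h2⟩ := hg m hm
    refine ⟨ψ, (tauE a).trans α, ?_, h2⟩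
    apply AlgHom.ext
    intro f
    show φ (tauE a f) = ψ (α (tauE a f))
    rw [h1]
    rfl
  have hε : ∀ i, eps (φ' (xv i)) = 0 := by
    intro i
    show eps (φ (tau a (xv i))) = 0
    rw [tau_xv, map_add, AlgHom.commutes, map_add, AlgHom.commutes]
    exact add_neg_cancel _
  obtain ⟨u, hu⟩ := good_jac hg'
  have hJP : Jac φ' * (u⁻¹ : (Matrix X X (Fe K X))ˣ).1 = 1 := by
    rw [← hu]
    exact u.mul_inv
  have hPJ : (u⁻¹ : (Matrix X X (Fe K X))ˣ).1 * Jac φ' = 1 := by
    rw [← hu]
    exact u.inv_mul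
  have h := surj0 φ' _ hJP hPJ hε hg'
  intro g
  obtain ⟨f, hf⟩ := h g
  exact ⟨tauE a f, hf⟩

end tr


end Pool.Agent.R933.Ga
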