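import Pool.Agent.R933.Ga.Main

/-!
# Augmentations and one-sided expansions
-/

set_option autoImplicit false
set_option linter.unusedSectionVars false
set_option linter.unusedSimpArgs false
set_option maxHeartbeats 1000000

namespace Pool.Agent.R933.Ga

open MonoidAlgebra MulOpposite

section fox

variable {K X : Type} [Field K] [DecidableEq X]

theorem tp_decomp (m : PW X) : (single m 1 : Fe K X) =
    tp m.1.toList [] * tp [] m.2.unop.toList := by
  rw [tp_mul, List.append_nil, List.append_nil]
  rfl

/-- the augmentation of the free algebra -/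
noncomputable def eps : Fa K X →ₐ[K] K :=
  MonoidAlgebra.lift K K (FreeMonoid X)
    { toFun := fun m => if m.length = 0 then 1 else 0
      map_one' := if_pos rfl
      map_mul' := by
        intro m m'
        rw [FreeMonoid.length_mul]
        by_cases h1 : m.length = 0
        · by_cases h2 : m'.length = 0
          · rw [if_pos h1, if_pos h2, if_pos (by omega), one_mul]
          · rw [if_neg h2, if_neg (by omega), mul_zero]
        · rw [if_neg h1, if_neg (by omega), zero_mul] }

theorem eps_single (m : FreeMonoid X) : eps (single m (1 : K)) = if m.length = 0 then 1 else 0 := by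
  unfold eps
  rw [MonoidAlgebra.lift_single, one_smul]
  rfl

theorem eps_xv (i : X) : eps (xv i : Fa K X) = 0 := by
  unfold xv
  rw [eps_single, if_neg (by rw [FreeMonoid.length_of]; omega)]

/-- the evaluation of the right factor at zero -/
noncomputable def eR : Fe K X →ₐ[K] Fa K X :=
  MonoidAlgebra.lift K (Fa K X) (PW X)
    { toFun := fun m => if m.2.unop.length = 0 then single m.1 1 else 0
      map_one' := if_pos rfl
      map_mul' := by
        intro m m'
        have h0 : (m * m').2.unop.length = m'.2.unop.length + m.2.unop.length :=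
          FreeMonoid.length_mul _ _
        rw [h0]
        by_cases h1 : m.2.unop.length = 0
        · by_cases h2 : m'.2.unop.length = 0
          · rw [if_pos h1, if_pos h2, if_pos (by omega), single_mul_single, one_mul]
            rfl
          · rw [if_neg h2, if_neg (by omega), mul_zero]
        · rw [if_neg h1, if_neg (by omega), zero_mul] }

theorem eR_single (m : PW X) : eR (single m (1 : K)) =
    if m.2.unop.length = 0 then single m.1 1 else 0 := by
  unfold eR
  rw [MonoidAlgebra.lift_single, one_smul]
  rfl

/-- the evaluation of the left factor at zero -/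
noncomputable def eL : Fe K X →ₗ[K] Fa K X :=
  lx (fun m => if m.1.length = 0 then single m.2.unop 1 else 0)

theorem eL_single (m : PW X) : eL (single m (1 : K)) =
    if m.1.length = 0 then single m.2.unop 1 else 0 := by
  unfold eL
  rw [lx_single, one_smul]

theorem eL_mul (b b' : Fe K X) : eL (b * b') = eL b' * eL b := by
  have key := bil_ext ((LinearMap.mul K (Fe K X)).compr₂ eL)
    (((LinearMap.mul K (Fa K X)).compl₁₂ eL eL).flip) ?_ b b'
  · simpa only [LinearMap.compr₂_apply, LinearMap.mul_apply', LinearMap.compl₁₂_apply,
      LinearMap.flip_apply] using key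
  intro m m'
  simp only [LinearMap.compr₂_apply, LinearMap.mul_apply', LinearMap.compl₁₂_apply,
      LinearMap.flip_apply]
  rw [single_mul_single, one_mul, eL_single, eL_single, eL_single]
  have h0 : (m * m').1.length = m.1.length + m'.1.length := FreeMonoid.length_mul _ _
  rw [h0]
  by_cases h1 : m.1.length = 0
  · by_cases h2 : m'.1.length = 0
    · rw [if_pos h1, if_pos h2, if_pos (by omega), single_mul_single, one_mul]
      rfl
    · rw [if_neg h2, if_neg (by omega), zero_mul]
  · rw [if_neg h1, if_neg (by omega), mul_zero]

theorem eR_lf (f : Fa K X) : eR (lf f) = f := by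
  refine lin_ext (f := eR.toLinearMap ∘ₗ lf) (g := LinearMap.id) ?_ f
  intro m
  show eR (lf (single m 1)) = single m 1
  rw [lf_single, one_smul]
  unfold tp
  rw [eR_single]
  exact if_pos rfl

theorem eR_rf (f : Fa K X) : eR (rf f) = algebraMap K (Fa K X) (eps f) := by
  refine lin_ext (f := eR.toLinearMap ∘ₗ rf) (g := Algebra.linearMap K (Fa K X) ∘ₗ
    eps.toLinearMap) ?_ f
  intro m
  show eR (rf (single m 1)) = algebraMap K (Fa K X) (eps (single m 1))
  rw [rf_single, one_smul, eps_single]
  unfold tp
  rw [eR_single]
  show (if m.length = 0 then (1 : Fa K X) else 0) = _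
  split_ifs
  · rw [map_one]
  · rw [map_zero]

theorem eL_rf (f : Fa K X) : eL (rf f) = f := by
  refine lin_ext (f := eL ∘ₗ rf) (g := LinearMap.id) ?_ f
  intro m
  show eL (rf (single m 1)) = single m 1
  rw [rf_single, one_smul]
  unfold tp
  rw [eL_single]
  exact if_pos rfl

theorem eL_lf (f : Fa K X) : eL (lf f) = algebraMap K (Fa K X) (eps f) := by
  refine lin_ext (f := eL ∘ₗ lf) (g := Algebra.linearMap K (Fa K X) ∘ₗ
    eps.toLinearMap) ?_ f
  intro m
  show eL (lf (single m 1)) = algebraMap K (Fa K X) (eps (single m 1))
  rw [lf_single, one_smul, eps_single]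
  unfold tp
  rw [eL_single]
  show (if m.length = 0 then (1 : Fa K X) else 0) = _
  split_ifs
  · rw [map_one]
  · rw [map_zero]

theorem eL_one : eL (1 : Fe K X) = 1 := by
  rw [← lf_one, eL_lf, map_one, map_one]

theorem word_cons (x : X) (w : List X) : (single (FreeMonoid.ofList (x :: w)) 1 : Fa K X) =
    xv x * single (FreeMonoid.ofList w) 1 := by
  unfold xv
  rw [single_mul_single, one_mul]
  rfl

/-- an induction principle -/
theorem word_ext {V : Type} [AddCommGroup V] [Module K V] {f g : Fa K X →ₗ[K] V}
    (h1 : f 1 = g 1) (hc : ∀ x a, f a = g a → f (xv x * a) = g (xv x * a)) (a : Fa K X) :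
    f a = g a := by
  apply lin_ext
  intro m
  have hw : ∀ w : List X, f (single (FreeMonoid.ofList w) 1) = g (single (FreeMonoid.ofList w) 1) := by
    intro w
    induction w with
    | nil => exact h1
    | cons x w ih =>
      rw [word_cons]
      exact hc x _ ih
  exact hw m.toList

variable [Fintype X]

/-- derivations to a module on which the right action is by the augmentation -/
theorem der_formula (D : Fa K X →ₗ[K] Fe K X)
    (hD : ∀ f g, D (f * g) = lf f * D g + eps g • D f) (f : Fa K X) :
    D f = ∑ l, lf (eR (der l f)) * D (xv l) := by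
  have h1 : D 1 = 0 := by
    have := hD 1 1
    rw [mul_one, lf_one, one_mul, map_one (eps : Fa K X →ₐ[K] K), one_smul] at this
    exact left_eq_add.1 this
  have key := word_ext (f := D)
    (g := ∑ l, (LinearMap.mulRight K (D (xv l))) ∘ₗ lf ∘ₗ eR.toLinearMap ∘ₗ (der l)) ?_ ?_ f
  · rw [LinearMap.sum_apply] at key
    exact key
  · rw [LinearMap.sum_apply, h1]
    symm
    apply Finset.sum_eq_zero
    intro l _
    show lf (eR (der l 1)) * D (xv l) = 0
    rw [der_one, map_zero, map_zero, zero_mul]
  · intro x a ha
    rw [LinearMap.sum_apply] at ha ⊢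
    have ha' : D a = ∑ l, lf (eR (der l a)) * D (xv l) := ha
    show D (xv x * a) = ∑ l, lf (eR (der l (xv x * a))) * D (xv l)
    rw [hD, ha']
    simp only [der_mul, map_add, map_mul, eR_lf, eR_rf, lf_mul, add_mul, Finset.sum_add_distrib,
      Finset.mul_sum, mul_assoc]
    congr 1
    rw [Finset.sum_eq_single x]
    · rw [der_xv, if_pos rfl, map_one, lf_one, one_mul, Algebra.algebraMap_eq_smul_one, map_smul,
        lf_one, smul_mul_assoc, one_mul]
    · intro l _ hl
      rw [der_xv, if_neg (Ne.symm hl), map_zero, map_zero, zero_mul, mul_zero]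
    · intro h
      exact absurd (Finset.mem_univ _) h

theorem lf_injective : Function.Injective (lf : Fa K X →ₗ[K] Fe K X) :=
  Function.LeftInverse.injective (g := eR) eR_lf

/-- `f ↦ f - ε(f)` -/
noncomputable def lme : Fa K X →ₗ[K] Fe K X where
  toFun f := lf f - eps f • 1
  map_add' f g := by
    rw [map_add, map_add, add_smul]
    abel
  map_smul' c f := by
    rw [map_smul, map_smul, smul_sub, smul_assoc, RingHom.id_apply]

theorem lme_apply (f : Fa K X) : (lme f : Fe K X) = lf f - eps f • 1 := rfl

/-- the right expansion -/
theorem fox_right (f : Fa K X) :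
    f = eps f • 1 + ∑ i, eR (der i f) * xv i := by
  have h1 := der_formula (lme : Fa K X →ₗ[K] Fe K X) ?_ f
  · apply lf_injective
    have h3 : ∀ i : X, lme (xv i) = (lf (xv i) : Fe K X) := by
      intro i
      rw [lme_apply, eps_xv, zero_smul, sub_zero]
    rw [lme_apply] at h1
    simp only [h3] at h1
    rw [sub_eq_iff_eq_add, add_comm] at h1
    rw [map_add, map_sum, map_smul, lf_one]
    rw [h1]
    congr 1
    apply Finset.sum_congr rfl
    intro i _
    rw [lf_mul]
  · intro f g
    rw [lme_apply, lme_apply, lme_apply, lf_mul, map_mul, mul_sub, smul_sub, mul_smul_comm, mul_one,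
      smul_smul, mul_comm (eps g)]
    abel

/-- the left expansion -/
theorem fox_left (f : Fa K X) :
    f = eps f • 1 + ∑ i, xv i * eL (der i f) := by
  have hw : ∀ w : List X, (single (FreeMonoid.ofList w) 1 : Fa K X) =
      eps (single (FreeMonoid.ofList w) 1 : Fa K X) • 1 +
        ∑ i, xv i * eL (der i (single (FreeMonoid.ofList w) 1 : Fa K X)) := by
    intro w
    cases w with
    | nil =>
      have : (single (FreeMonoid.ofList ([] : List X)) 1 : Fa K X) = 1 := rfl
      rw [this, map_one, one_smul, Finset.sum_eq_zero, add_zero]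
      intro i _
      rw [der_one, map_zero, mul_zero]
    | cons x w =>
      rw [word_cons, map_mul, eps_xv, zero_mul, zero_smul, zero_add, Finset.sum_eq_single x]
      · rw [der_mul, map_add, eL_mul, eL_mul, eL_lf, eps_xv, map_zero, mul_zero, zero_add, eL_rf,
          der_xv, if_pos rfl, eL_one, one_mul]
      · intro i _ hi
        rw [der_mul, map_add, eL_mul, eL_mul, eL_lf, eps_xv, map_zero, mul_zero, zero_add, eL_rf,
          der_xv, if_neg (Ne.symm hi), map_zero, zero_mul, mul_zero]
      · intro h
        exact absurd (Finset.mem_univ _) h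
  induction f using MonoidAlgebra.induction_linear with
  | zero => simp
  | add f g hf hg =>
    have e : eps (f + g) • (1 : Fa K X) + ∑ i, xv i * eL (der i (f + g)) =
        (eps f • 1 + ∑ i, xv i * eL (der i f)) + (eps g • 1 + ∑ i, xv i * eL (der i g)) := by
      simp only [map_add, add_smul, mul_add, Finset.sum_add_distrib]
      abel
    rw [e, ← hf, ← hg]
  | single m c =>
    have e := hw m.toList
    have e2 : (single (FreeMonoid.ofList m.toList) 1 : Fa K X) = single m 1 := rfl
    rw [e2] at e
    rw [single_smul]
    have e3 : eps (c • (single m 1 : Fa K X)) • (1 : Fa K X) +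
        ∑ i, xv i * eL (der i (c • (single m 1 : Fa K X))) =
        c • (eps (single m 1 : Fa K X) • (1 : Fa K X) + ∑ i, xv i * eL (der i (single m 1))) := by
      simp only [map_smul, smul_add, smul_assoc, mul_smul_comm, Finset.smul_sum]
    rw [e3, ← e]

end fox

end Pool.Agent.R933.Ga
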