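import Pool.Agent.R933.Ga.Bas

/-!
# The grading of `A ⊗ Aᵒᵖ` and formal inverses of matrices
-/

set_option autoImplicit false
set_option linter.unusedSectionVars false
set_option linter.unusedSimpArgs false

namespace Pool.Agent.R933.Ga

open MonoidAlgebra MulOpposite

section gr

variable {K X : Type} [Field K]

/-- the pairs of words -/
abbrev PW (X : Type) : Type := FreeMonoid X × (FreeMonoid X)ᵐᵒᵖ

/-- the degree of a pair of words -/
def dg (m : PW X) : ℕ := m.1.length + m.2.unop.length

theorem dg_one : dg (1 : PW X) = 0 := rfl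

theorem dg_mul (m m' : PW X) : dg (m * m') = dg m + dg m' := by
  unfold dg
  rw [Prod.fst_mul, Prod.snd_mul, unop_mul, FreeMonoid.length_mul, FreeMonoid.length_mul]
  ring

/-- the grading homomorphism -/
noncomputable def gam : Fe K X →ₐ[K] Polynomial (Fe K X) :=
  MonoidAlgebra.lift K (Polynomial (Fe K X)) (PW X)
    { toFun := fun m => Polynomial.monomial (dg m) (single m 1)
      map_one' := rfl
      map_mul' := by
        intro m m'
        rw [Polynomial.monomial_mul_monomial, single_mul_single, one_mul, dg_mul] }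

/-- the homogeneous components -/
noncomputable def cmp (k : ℕ) : Fe K X →ₗ[K] Fe K X :=
  lx (fun m => if dg m = k then single m 1 else 0)

theorem cmp_single (k : ℕ) (m : PW X) (c : K) :
    (cmp k (single m c) : Fe K X) = if dg m = k then single m c else 0 := by
  unfold cmp
  rw [lx_single]
  split_ifs
  · rw [← single_smul]
  · rw [smul_zero]

theorem gam_coeff (k : ℕ) (b : Fe K X) : (gam b).coeff k = cmp k b := by
  induction b using MonoidAlgebra.induction_linear with
  | zero => rw [map_zero, map_zero, Polynomial.coeff_zero]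
  | add x y hx hy => rw [map_add, map_add, Polynomial.coeff_add, hx, hy]
  | single m c =>
    rw [single_smul, map_smul, map_smul, Polynomial.coeff_smul, cmp_single]
    congr 1
    unfold gam
    rw [MonoidAlgebra.lift_single, one_smul]
    exact Polynomial.coeff_monomial

theorem cmp_mul (k : ℕ) (a b : Fe K X) : cmp k (a * b) =
    ∑ p ∈ Finset.HasAntidiagonal.antidiagonal k, cmp p.1 a * cmp p.2 b := by
  rw [← gam_coeff, map_mul, Polynomial.coeff_mul]
  simp only [gam_coeff]

/-- the homogeneous elements of degree `k` -/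
noncomputable def Hk (K X : Type) [Field K] (k : ℕ) : Submodule K (Fe K X) :=
  Submodule.span K {b | ∃ m : PW X, dg m = k ∧ b = single m 1}

theorem single_mem {k : ℕ} {m : PW X} (hm : dg m = k) (c : K) : single m c ∈ Hk K X k := by
  rw [single_smul]
  exact Submodule.smul_mem _ _ (Submodule.subset_span ⟨m, hm, rfl⟩)

theorem cmp_mem (k : ℕ) (b : Fe K X) : cmp k b ∈ Hk K X k := by
  induction b using MonoidAlgebra.induction_linear with
  | zero => rw [map_zero]; exact Submodule.zero_mem _
  | add x y hx hy => rw [map_add]; exact Submodule.add_mem _ hx hy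
  | single m c =>
    rw [cmp_single]
    split_ifs with h
    · exact single_mem h c
    · exact Submodule.zero_mem _

theorem Hk_ind {k : ℕ} {P : Fe K X → Prop} (h0 : P 0) (ha : ∀ x y, P x → P y → P (x + y))
    (hs : ∀ (c : K) x, P x → P (c • x)) (h1 : ∀ m : PW X, dg m = k → P (single m 1))
    {b : Fe K X} (hb : b ∈ Hk K X k) : P b := by
  unfold Hk at hb
  induction hb using Submodule.span_induction with
  | mem x hx =>
    obtain ⟨m, hm, rfl⟩ := hx
    exact h1 m hm
  | zero => exact h0
  | add x y _ _ hx hy => exact ha x y hx hy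
  | smul c x _ hx => exact hs c x hx

theorem mul_mem_Hk {k l : ℕ} {a b : Fe K X} (ha : a ∈ Hk K X k) (hb : b ∈ Hk K X l) :
    a * b ∈ Hk K X (k + l) := by
  refine Hk_ind (P := fun a => a * b ∈ Hk K X (k + l)) ?_ ?_ ?_ ?_ ha
  · rw [zero_mul]; exact Submodule.zero_mem _
  · intro x y hx hy
    rw [add_mul]; exact Submodule.add_mem _ hx hy
  · intro c x hx
    rw [smul_mul_assoc]; exact Submodule.smul_mem _ _ hx
  · intro m hm
    refine Hk_ind (P := fun b => single m 1 * b ∈ Hk K X (k + l)) ?_ ?_ ?_ ?_ hb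
    · rw [mul_zero]; exact Submodule.zero_mem _
    · intro x y hx hy
      rw [mul_add]; exact Submodule.add_mem _ hx hy
    · intro c x hx
      rw [mul_smul_comm]; exact Submodule.smul_mem _ _ hx
    · intro m' hm'
      rw [single_mul_single]
      exact single_mem (by rw [dg_mul, hm, hm']) _

theorem cmp_of_mem {k : ℕ} {b : Fe K X} (hb : b ∈ Hk K X k) (l : ℕ) :
    cmp l b = if l = k then b else 0 := by
  refine Hk_ind (P := fun b => cmp l b = if l = k then b else 0) ?_ ?_ ?_ ?_ hb
  · rw [map_zero]; simp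
  · intro x y hx hy
    rw [map_add, hx, hy]
    split_ifs
    · rfl
    · rw [add_zero]
  · intro c x hx
    rw [map_smul, hx]
    split_ifs
    · rfl
    · rw [smul_zero]
  · intro m hm
    rw [cmp_single, hm]
    by_cases h : l = k
    · rw [if_pos h.symm, if_pos h]
    · rw [if_neg (Ne.symm h), if_neg h]

theorem exists_bound (b : Fe K X) : ∃ N, ∀ n, N ≤ n → cmp n b = 0 := by
  induction b using MonoidAlgebra.induction_linear with
  | zero => exact ⟨0, fun n _ => map_zero _⟩
  | add x y hx hy =>
    obtain ⟨N1, h1⟩ := hx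
    obtain ⟨N2, h2⟩ := hy
    refine ⟨max N1 N2, fun n hn => ?_⟩
    rw [map_add, h1 n ((le_max_left _ _).trans hn), h2 n ((le_max_right _ _).trans hn), add_zero]
  | single m c =>
    refine ⟨dg m + 1, fun n hn => ?_⟩
    rw [cmp_single, if_neg (by omega)]

theorem cmp_ext {a b : Fe K X} (h : ∀ k, cmp k a = cmp k b) : a = b := by
  have key : ∀ m : PW X, ∀ x : Fe K X, (cmp (dg m) x).coeff m = x.coeff m := by
    classical
    intro m x
    induction x using MonoidAlgebra.induction_linear with
    | zero => rw [map_zero]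
    | add x y hx hy => rw [map_add, coeff_add, coeff_add, Finsupp.add_apply, Finsupp.add_apply, hx, hy]
    | single m' c =>
      rw [cmp_single]
      split_ifs with h1
      · rfl
      · rw [coeff_single, Finsupp.single_apply, if_neg]
        · rfl
        · rintro rfl
          exact h1 rfl
  ext m
  rw [← key m a, ← key m b, h]

end gr

section mat

variable {K X Y : Type} [Field K] [DecidableEq Y] [Fintype Y]

/-- the homogeneous components of a matrix -/
noncomputable def Mc (k : ℕ) (J : Matrix Y Y (Fe K X)) : Matrix Y Y (Fe K X) :=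
  J.map (cmp k)

theorem Mc_mul (k : ℕ) (J J' : Matrix Y Y (Fe K X)) : Mc k (J * J') =
    ∑ p ∈ Finset.HasAntidiagonal.antidiagonal k, Mc p.1 J * Mc p.2 J' := by
  ext1 i j
  rw [Matrix.sum_apply]
  show cmp k ((J * J') i j) = _
  rw [Matrix.mul_apply, map_sum]
  simp only [cmp_mul]
  rw [Finset.sum_comm]
  rfl

theorem Mc_ext {J J' : Matrix Y Y (Fe K X)} (h : ∀ k, Mc k J = Mc k J') : J = J' := by
  ext1 i j
  apply cmp_ext
  intro k
  exact congrFun (congrFun (h k) i) j

theorem Mc_one (k : ℕ) : Mc k (1 : Matrix Y Y (Fe K X)) = if k = 0 then 1 else 0 := by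
  ext1 i j
  have h1 : (1 : Fe K X) ∈ Hk K X 0 := by
    rw [one_def]
    exact single_mem dg_one 1
  show cmp k ((1 : Matrix Y Y (Fe K X)) i j) = _
  rw [Matrix.one_apply]
  by_cases hij : i = j
  · rw [if_pos hij, cmp_of_mem h1]
    split_ifs
    · rw [Matrix.one_apply, if_pos hij]
    · rfl
  · rw [if_neg hij, map_zero]
    split_ifs
    · rw [Matrix.one_apply, if_neg hij]
    · rfl

theorem exists_bound_mat (J : Matrix Y Y (Fe K X)) : ∃ N, ∀ n, N ≤ n → Mc n J = 0 := by
  choose N hN using fun p : Y × Y => exists_bound (J p.1 p.2)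
  refine ⟨Finset.univ.sup N, fun n hn => ?_⟩
  ext1 i j
  exact hN (i, j) n ((Finset.le_sup (Finset.mem_univ (i, j))).trans hn)

/-- the power series of a matrix -/
noncomputable def psj (J : Matrix Y Y (Fe K X)) : PowerSeries (Matrix Y Y (Fe K X)) :=
  PowerSeries.mk (fun k => Mc k J)

/-- the components of the formal inverse of a matrix -/
noncomputable def Ek (J : Matrix Y Y (Fe K X)) (k : ℕ) : Matrix Y Y (Fe K X) :=
  PowerSeries.coeff k (PowerSeries.invOfUnit (psj J) 1)

theorem psj_mul (J : Matrix Y Y (Fe K X)) (hJ : Mc 0 J = 1) :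
    psj J * PowerSeries.invOfUnit (psj J) 1 = 1 := by
  apply PowerSeries.mul_invOfUnit
  rw [← PowerSeries.coeff_zero_eq_constantCoeff_apply, psj, PowerSeries.coeff_mk, hJ]
  rfl

theorem mul_psj (J : Matrix Y Y (Fe K X)) (hJ : Mc 0 J = 1) :
    PowerSeries.invOfUnit (psj J) 1 * psj J = 1 := by
  apply PowerSeries.invOfUnit_mul
  rw [← PowerSeries.coeff_zero_eq_constantCoeff_apply, psj, PowerSeries.coeff_mk, hJ]
  rfl

theorem Ek_rel (J : Matrix Y Y (Fe K X)) (hJ : Mc 0 J = 1) (k : ℕ) :
    ∑ p ∈ Finset.HasAntidiagonal.antidiagonal k, Mc p.1 J * Ek J p.2 = if k = 0 then 1 else 0 := by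
  have h1 := congrArg (PowerSeries.coeff k) (psj_mul J hJ)
  rw [PowerSeries.coeff_mul, PowerSeries.coeff_one] at h1
  rw [← h1]
  apply Finset.sum_congr rfl
  intro p _
  rw [psj, PowerSeries.coeff_mk]
  rfl

theorem Ek_rel' (J : Matrix Y Y (Fe K X)) (hJ : Mc 0 J = 1) (k : ℕ) :
    ∑ p ∈ Finset.HasAntidiagonal.antidiagonal k, Ek J p.1 * Mc p.2 J = if k = 0 then 1 else 0 := by
  have h1 := congrArg (PowerSeries.coeff k) (mul_psj J hJ)
  rw [PowerSeries.coeff_mul, PowerSeries.coeff_one] at h1
  rw [← h1]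
  apply Finset.sum_congr rfl
  intro p _
  rw [psj, PowerSeries.coeff_mk]
  rfl

theorem Ek_zero (J : Matrix Y Y (Fe K X)) (hJ : Mc 0 J = 1) : Ek J 0 = 1 := by
  have h1 := Ek_rel J hJ 0
  rw [Finset.HasAntidiagonal.antidiagonal_zero, Finset.sum_singleton, hJ, one_mul, if_pos rfl] at h1
  exact h1

theorem Ek_succ (J : Matrix Y Y (Fe K X)) (hJ : Mc 0 J = 1) (k : ℕ) :
    Ek J (k + 1) = - ∑ p ∈ Finset.HasAntidiagonal.antidiagonal k, Mc (p.1 + 1) J * Ek J p.2 := by
  have h1 := Ek_rel J hJ (k + 1)
  rw [Finset.Nat.antidiagonal_succ, Finset.sum_cons, Finset.sum_map, if_neg (by omega)] at h1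
  rw [hJ, one_mul] at h1
  exact eq_neg_of_add_eq_zero_left h1

theorem Ek_mem (J : Matrix Y Y (Fe K X)) (hJ : Mc 0 J = 1) (k : ℕ) :
    ∀ i j, Ek J k i j ∈ Hk K X k := by
  induction k using Nat.strong_induction_on with
  | _ k ih =>
    intro i j
    rcases k with _ | k
    · rw [Ek_zero J hJ, Matrix.one_apply]
      split_ifs
      · rw [one_def]
        exact single_mem dg_one 1
      · exact Submodule.zero_mem _
    · rw [Ek_succ J hJ, Matrix.neg_apply, Matrix.sum_apply]
      apply Submodule.neg_mem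
      apply Submodule.sum_mem
      intro p hp
      rw [Finset.HasAntidiagonal.mem_antidiagonal] at hp
      rw [Matrix.mul_apply]
      apply Submodule.sum_mem
      intro l _
      have h1 := mul_mem_Hk (cmp_mem (p.1 + 1) (J i l)) (ih p.2 (by omega) l j)
      rw [show p.1 + 1 + p.2 = k + 1 by omega] at h1
      exact h1

/-- **a matrix whose formal inverse is polynomial is invertible** -/
theorem unit_of_bound (J : Matrix Y Y (Fe K X)) (hJ : Mc 0 J = 1) (N : ℕ)
    (hN : ∀ k, N ≤ k → Ek J k = 0) : IsUnit J := by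
  set e : Matrix Y Y (Fe K X) := ∑ k ∈ Finset.range N, Ek J k with he
  have hc : ∀ l, Mc l e = Ek J l := by
    intro l
    ext1 i j
    show cmp l (e i j) = _
    rw [he, Matrix.sum_apply, map_sum]
    simp only [cmp_of_mem (Ek_mem J hJ _ i j)]
    rw [Finset.sum_ite_eq]
    split_ifs with h
    · rfl
    · rw [Finset.mem_range, not_lt] at h
      rw [hN l h]
      rfl
  have h1 : J * e = 1 := by
    apply Mc_ext
    intro k
    rw [Mc_mul, Mc_one]
    simp only [hc]
    exact Ek_rel J hJ k
  have h2 : e * J = 1 := by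
    apply Mc_ext
    intro k
    rw [Mc_mul, Mc_one]
    simp only [hc]
    exact Ek_rel' J hJ k
  exact ⟨⟨J, e, h1, h2⟩, rfl⟩

end mat

end Pool.Agent.R933.Ga
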