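import Pool.Agent.R933.Ga.Det

/-!
# Good endomorphisms have invertible Jacobian matrices
-/

set_option autoImplicit false
set_option linter.unusedSectionVars false
set_option linter.unusedSimpArgs false

namespace Pool.Agent.R933.Ga

open MonoidAlgebra MulOpposite

section aug

variable {K X : Type} [Field K]

theorem dg_zero {m : PW X} (h : dg m = 0) : m = 1 := by
  have h1 : m.1.length + m.2.unop.length = 0 := h
  have h2 : m.1 = 1 := FreeMonoid.length_eq_zero.1 (by omega)
  have h3 : m.2.unop = 1 := FreeMonoid.length_eq_zero.1 (by omega)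
  apply Prod.ext
  · exact h2
  · apply MulOpposite.unop_injective
    exact h3

/-- the augmentation -/
noncomputable def aug : Fe K X →ₐ[K] K :=
  MonoidAlgebra.lift K K (PW X)
    { toFun := fun m => if dg m = 0 then 1 else 0
      map_one' := if_pos rfl
      map_mul' := by
        intro m m'
        rw [dg_mul]
        by_cases h1 : dg m = 0
        · by_cases h2 : dg m' = 0
          · rw [if_pos h1, if_pos h2, if_pos (by omega), one_mul]
          · rw [if_neg h2, if_neg (by omega), mul_zero]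
        · rw [if_neg h1, if_neg (by omega), zero_mul] }

theorem aug_single (m : PW X) : aug (single m (1 : K)) = if dg m = 0 then 1 else 0 := by
  unfold aug
  rw [MonoidAlgebra.lift_single, one_smul]
  rfl

theorem cmp_zero (b : Fe K X) : cmp 0 b = algebraMap K (Fe K X) (aug b) := by
  refine lin_ext (f := cmp 0) (g := (Algebra.linearMap K (Fe K X)) ∘ₗ aug.toLinearMap) ?_ b
  intro m
  show cmp 0 (single m 1) = algebraMap K (Fe K X) (aug (single m 1))
  rw [cmp_single, aug_single]
  split_ifs with h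
  · rw [map_one, dg_zero h]
    rfl
  · rw [map_zero]

theorem aug_low {b : Fe K X} (hb : b ∈ Low K X 1) : aug b = 0 := by
  refine Low_ind (P := fun b => aug b = 0) (map_zero _) ?_ ?_ ?_ hb
  · intro x y hx hy
    rw [map_add, hx, hy, add_zero]
  · intro c x hx
    rw [map_smul, hx, smul_zero]
  · intro m hm
    rw [aug_single, if_neg (by omega)]

end aug

section closed

variable {K X Y : Type} [Field K] [DecidableEq X] [DecidableEq Y] [Fintype Y]

/-- limits of matrices with a left inverse -/
def Lim (J : Matrix Y Y (Fe K X)) : Prop :=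
  ∀ m : ℕ, ∃ A B N : Matrix Y Y (Fe K X), B * A = 1 ∧ (∀ i j, N i j ∈ Low K X (m + 1)) ∧
    (J = A * (1 + N) ∨ J = (1 + N) * A)

theorem lim_dt {J : Matrix Y Y (Fe K X)} (h : Lim J) (r : ℕ) [NeZero r] :
    IsUnit (dt K X r J) := by
  have hfac : ∀ m : ℕ, ∃ (c : Polynomial (QQ K X r)) (g : PT K X r), IsUnit c ∧
      dt K X r J = Polynomial.C c * (1 + Polynomial.X ^ (m + 1) * g) := by
    intro m
    obtain ⟨A, B, N, hBA, hN, hJ⟩ := h m
    obtain ⟨g, hg⟩ := dt_low (r := r) N (s := m + 1) hN
    have hu : IsUnit (dt K X r A) := by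
      have h1 : dt K X r B * dt K X r A = 1 := by
        rw [← dt_mul, hBA, dt_one]
      exact IsUnit.of_mul_eq_one_right _ h1
    obtain ⟨c, hc, hcA⟩ := Polynomial.isUnit_iff.1 hu
    refine ⟨c, g, hc, ?_⟩
    rcases hJ with hJ | hJ
    · rw [hJ, dt_mul, hg, hcA]
    · rw [hJ, dt_mul, hg, hcA]
      exact mul_comm (1 + Polynomial.X ^ (m + 1) * g : PT K X r) (dt K X r A)
  obtain ⟨c, g, hc, e⟩ := hfac 0
  have h0 : dt K X r J = Polynomial.C c := by
    ext1 k
    rcases k with _ | k
    · rw [e, Polynomial.coeff_C_mul, Polynomial.coeff_add, Polynomial.coeff_one_zero,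
        Polynomial.coeff_X_pow_mul', if_neg (by omega), add_zero, mul_one, Polynomial.coeff_C_zero]
    · obtain ⟨c', g', -, e'⟩ := hfac (k + 1)
      rw [e', Polynomial.coeff_C_mul, Polynomial.coeff_add, Polynomial.coeff_one, if_neg (by omega),
        Polynomial.coeff_X_pow_mul', if_neg (by omega), add_zero, mul_zero, Polynomial.coeff_C_succ]
  rw [h0]
  exact Polynomial.isUnit_C.2 hc

/-- **the group of invertible matrices over `A ⊗ Aᵒᵖ` is closed** -/
theorem closed {J : Matrix Y Y (Fe K X)} (h : Lim J) : IsUnit J := by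
  obtain ⟨A, B, N, hBA, hN, hJ⟩ := h 0
  set au := (aug (K := K) (X := X)).toRingHom.mapMatrix (m := Y) with hau
  set al := (algebraMap K (Fe K X)).mapMatrix (m := Y) with hal
  have e1 : au J = au A := by
    have h1 : au N = 0 := by
      ext i j
      exact aug_low (hN i j)
    rcases hJ with hJ | hJ
    · rw [hJ, map_mul, map_add, map_one, h1, add_zero, mul_one]
    · rw [hJ, map_mul, map_add, map_one, h1, add_zero, one_mul]
  have e2 : au B * au J = 1 := by
    rw [e1, ← map_mul, hBA, map_one]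
  have e3 : au J * au B = 1 := mul_eq_one_comm.1 e2
  set L := al (au B) with hL
  set G := al (au J) with hG
  have hLG : L * G = 1 := by rw [hL, hG, ← map_mul, e2, map_one]
  have hGL : G * L = 1 := by rw [hL, hG, ← map_mul, e3, map_one]
  have hMc : ∀ M : Matrix Y Y (Fe K X), Mc 0 M = al (au M) := by
    intro M
    ext1 i j
    exact cmp_zero (M i j)
  have hL0 : Mc 0 L = L := by
    rw [hMc, hL]
    congr 1
    ext i j
    show aug (algebraMap K (Fe K X) (au B i j)) = au B i j
    rw [AlgHom.commutes]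
    rfl
  have hJ' : Mc 0 (L * J) = 1 := by
    rw [Mc_mul, Finset.HasAntidiagonal.antidiagonal_zero, Finset.sum_singleton, hL0, hMc, ← hG, hLG]
  have hu : IsUnit (L * J) := by
    apply unit_of_det _ hJ'
    intro r hr
    have : NeZero r := ⟨hr⟩
    rw [dt_mul]
    refine IsUnit.mul ?_ (lim_dt h r)
    have h1 : dt K X r G * dt K X r L = 1 := by rw [← dt_mul, hGL, dt_one]
    exact IsUnit.of_mul_eq_one_right _ h1
  have hG' : IsUnit G := ⟨⟨G, L, hGL, hLG⟩, rfl⟩
  have h2 : J = G * (L * J) := by rw [← mul_assoc, hGL, one_mul]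
  rw [h2]
  exact hG'.mul hu

end closed

section good

variable {K X : Type} [Field K] [DecidableEq X] [Fintype X]

/-- good endomorphisms: `φ = ψ α` with `α` an automorphism and `ψ x_i ≡ x_i` modulo `I ^ m`,
for every `m` -/
def Good (φ : Fa K X →ₐ[K] Fa K X) : Prop :=
  ∀ m : ℕ, 1 ≤ m → ∃ (ψ : Fa K X →ₐ[K] Fa K X) (α : Fa K X ≃ₐ[K] Fa K X),
    φ = ψ.comp (α : Fa K X →ₐ[K] Fa K X) ∧ ∀ i, ψ (xv i) - xv i ∈ lowA K X m

/-- **good endomorphisms have invertible Jacobian matrices** -/
theorem good_jac {φ : Fa K X →ₐ[K] Fa K X} (h : Good φ) : IsUnit (Jac φ) := by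
  apply closed
  intro m
  obtain ⟨ψ, α, rfl, hψ⟩ := h (m + 2) (by omega)
  refine ⟨(Jac (α : Fa K X →ₐ[K] Fa K X)).map (en ψ),
    ((Jac (α.symm : Fa K X →ₐ[K] Fa K X)).map (en (α : Fa K X →ₐ[K] Fa K X))).map (en ψ),
    Jac ψ - 1, ?_, ?_, Or.inl ?_⟩
  · rw [← Matrix.map_mul, ← Jac_comp]
    have : (α : Fa K X →ₐ[K] Fa K X).comp (α.symm : Fa K X →ₐ[K] Fa K X) =
        AlgHom.id K (Fa K X) := by
      apply AlgHom.ext
      intro x
      exact α.apply_symm_apply x
    rw [this, Jac_id]
    exact Matrix.map_one _ (map_zero _) (map_one _)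
  · intro i j
    have h1 := der_low j (hψ i)
    rw [map_sub, der_xv] at h1
    rw [Matrix.sub_apply, Matrix.one_apply]
    exact h1
  · rw [Jac_comp, add_sub_cancel]

end good

end Pool.Agent.R933.Ga
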