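import Pool.Agent.R933.Ga.Dom

/-!
# A bound for the degree of the inverse matrix
-/

set_option autoImplicit false
set_option linter.unusedSectionVars false
set_option linter.unusedSimpArgs false

namespace Pool.Agent.R933.Ga

open MonoidAlgebra MulOpposite

section rank

variable {K X Y P V : Type} [Field K] [DecidableEq Y] [Fintype Y] [CommRing P] [Nontrivial P]
  [AddCommGroup V] [Module P V] [Module.Free P V] [Module.Finite P V] [Algebra K P] [Module K V]
  [IsScalarTower K P V]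

variable (ρ : Fe K X →+* Module.End P V) (J : Matrix Y Y (Fe K X)) (d : ℕ)

/-- the states -/
noncomputable def st (b : Y) (k : ℕ) : V →ₗ[P] (Fin (d + 1) × Y → V) :=
  LinearMap.pi fun s => if (s.1 : ℕ) ≤ k then ρ (Ek J (k - s.1) s.2 b) else 0

theorem st_apply (b : Y) (k : ℕ) (x : V) (i : Fin (d + 1)) (a : Y) :
    st ρ J d b k x (i, a) = if (i : ℕ) ≤ k then ρ (Ek J (k - i) a b) x else 0 := by
  show (if (i : ℕ) ≤ k then ρ (Ek J (k - i) a b) else 0 : V →ₗ[P] V) x = _
  split_ifs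
  · rfl
  · rfl

/-- the companion operator -/
noncomputable def cm : (Fin (d + 1) × Y → V) →ₗ[P] (Fin (d + 1) × Y → V) :=
  LinearMap.pi fun s => if h : (s.1 : ℕ) = 0 then
      - ∑ t : Fin (d + 1) × Y, (ρ (Mc ((t.1 : ℕ) + 1) J s.2 t.2)) ∘ₗ LinearMap.proj t
    else LinearMap.proj (⟨(s.1 : ℕ) - 1, by omega⟩, s.2)

theorem cm_zero (y : Fin (d + 1) × Y → V) (a : Y) : cm ρ J d y (0, a) =
    - ∑ i : Fin (d + 1), ∑ c, ρ (Mc ((i : ℕ) + 1) J a c) (y (i, c)) := by
  unfold cm
  rw [LinearMap.pi_apply, dif_pos (by rfl), LinearMap.neg_apply, LinearMap.sum_apply,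
    Fintype.sum_prod_type]
  rfl

theorem cm_succ (y : Fin (d + 1) × Y → V) (i : ℕ) (hi : i + 1 < d + 1) (a : Y) :
    cm ρ J d y (⟨i + 1, hi⟩, a) = y (⟨i, by omega⟩, a) := by
  unfold cm
  rw [LinearMap.pi_apply, dif_neg (by simp)]
  rfl

theorem cm_st (hJ : Mc 0 J = 1) (hd : ∀ k, d < k → Mc k J = 0) (b : Y) (k : ℕ) (x : V) :
    cm ρ J d (st ρ J d b k x) = st ρ J d b (k + 1) x := by
  funext s
  obtain ⟨⟨i, hi⟩, a⟩ := s
  rcases i with _ | i
  · have h0 : (⟨0, hi⟩ : Fin (d + 1)) = 0 := rfl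
    rw [h0, cm_zero, st_apply]
    have h1 : ((0 : Fin (d + 1)) : ℕ) = 0 := rfl
    rw [h1, if_pos (Nat.zero_le _), Nat.sub_zero, Ek_succ J hJ k]
    have h2 : (- ∑ p ∈ Finset.HasAntidiagonal.antidiagonal k, Mc (p.1 + 1) J * Ek J p.2) a b =
        - ∑ p ∈ Finset.range (k + 1), ∑ c, Mc (p + 1) J a c * Ek J (k - p) c b := by
      rw [Matrix.neg_apply, Matrix.sum_apply, Finset.Nat.sum_antidiagonal_eq_sum_range_succ_mk]
      rfl
    rw [h2, map_neg, LinearMap.neg_apply]
    congr 1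
    rw [map_sum, LinearMap.sum_apply]
    -- both sums are sums over the indices at most `min k d`
    set g : ℕ → V := fun p => ρ (∑ c, Mc (p + 1) J a c * Ek J (k - p) c b) x with hg
    have hg0 : ∀ p, d ≤ p → g p = 0 := by
      intro p hp
      have : Mc (p + 1) J = 0 := hd _ (by omega)
      simp only [hg, this, Matrix.zero_apply, zero_mul, Finset.sum_const_zero, map_zero]
      rfl
    have e1 : ∀ i : Fin (d + 1), ∑ c, ρ (Mc ((i : ℕ) + 1) J a c) (st ρ J d b k x (i, c)) =
        if (i : ℕ) ≤ k then g i else 0 := by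
      intro i
      simp only [st_apply]
      split_ifs with h3
      · simp only [hg]
        rw [map_sum, LinearMap.sum_apply]
        apply Finset.sum_congr rfl
        intro c _
        rw [map_mul]
        rfl
      · simp only [map_zero, Finset.sum_const_zero]
    rw [Finset.sum_congr rfl (fun i _ => e1 i), Fin.sum_univ_eq_sum_range
      (fun i => if i ≤ k then g i else 0) (d + 1), ← Finset.sum_filter]
    apply Finset.sum_subset_zero_on_sdiff
    · intro p hp
      rw [Finset.mem_filter] at hp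
      exact Finset.mem_range.2 (by omega)
    · intro p hp
      rw [Finset.mem_sdiff, Finset.mem_filter, Finset.mem_range, Finset.mem_range] at hp
      exact hg0 p (by omega)
    · intro p _
      rfl
  · rw [cm_succ, st_apply, st_apply]
    show (if i ≤ k then ρ (Ek J (k - i) a b) x else 0) =
      if i + 1 ≤ k + 1 then ρ (Ek J (k + 1 - (i + 1)) a b) x else 0
    by_cases h3 : i ≤ k
    · rw [if_pos h3, if_pos (by omega), show k + 1 - (i + 1) = k - i by omega]
    · rw [if_neg h3, if_neg (by omega)]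

theorem cm_pow (hJ : Mc 0 J = 1) (hd : ∀ k, d < k → Mc k J = 0) (b : Y) (k : ℕ) (x : V) (l : ℕ) :
    ((cm ρ J d) ^ l) (st ρ J d b k x) = st ρ J d b (k + l) x := by
  induction l with
  | zero => rfl
  | succ l ih =>
    rw [pow_succ', Module.End.mul_apply, ih, cm_st ρ J d hJ hd]
    rfl

/-- **the rank argument** -/
theorem rank_bound (hV : 0 < Module.finrank P V) (hJ : Mc 0 J = 1)
    (hd : ∀ k, d < k → Mc k J = 0)
    (hdom : ∀ k, ∀ β ∈ Hk K X k, ρ β ≠ 0 → ∀ f, ρ β f = 0 → f = 0)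
    (D : ℕ) (hD : ∀ k, D < k → ∀ a b, ρ (Ek J k a b) = 0)
    (k : ℕ) (hk : (d + 1) * Fintype.card Y ≤ k) : ∀ a b, ρ (Ek J k a b) = 0 := by
  classical
  by_contra hne
  push Not at hne
  obtain ⟨a1, b1, h1⟩ := hne
  set T : Finset ℕ := (Finset.range (D + 1)).filter (fun k => ∃ a b, ρ (Ek J k a b) ≠ 0) with hT
  have hkD : k ≤ D := by
    by_contra h2
    exact h1 (hD k (by omega) a1 b1)
  have hkT : k ∈ T := Finset.mem_filter.2 ⟨Finset.mem_range.2 (by omega), a1, b1, h1⟩
  set M := T.max' ⟨k, hkT⟩ with hM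
  have hMT := T.max'_mem ⟨k, hkT⟩
  rw [← hM, hT, Finset.mem_filter] at hMT
  obtain ⟨-, a, b, hab⟩ := hMT
  have hkM : k ≤ M := T.le_max' k hkT
  have hMmax : ∀ l, M < l → ∀ a b, ρ (Ek J l a b) = 0 := by
    intro l hl a b
    by_contra h2
    have h3 : l ∈ T := by
      refine Finset.mem_filter.2 ⟨Finset.mem_range.2 ?_, a, b, h2⟩
      by_contra h4
      exact h2 (hD l (by omega) a b)
    exact absurd (T.le_max' l h3) (not_le.2 hl)
  -- the independent states
  let Λ : (Fin (M + 1) → V) →ₗ[P] (Fin (d + 1) × Y → V) :=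
    ∑ l : Fin (M + 1), (st ρ J d b (l : ℕ)) ∘ₗ LinearMap.proj l
  have hΛ : ∀ x, Λ x = ∑ l : Fin (M + 1), st ρ J d b (l : ℕ) (x l) := by
    intro x
    simp only [Λ, LinearMap.sum_apply]
    rfl
  have hinj : Function.Injective Λ := by
    rw [injective_iff_map_eq_zero]
    intro x hx
    by_contra hx0
    obtain ⟨l1, hl1⟩ := Function.ne_iff.1 hx0
    obtain ⟨l0, hl0, hmin⟩ := Finset.exists_min_image (Finset.univ.filter (fun l => x l ≠ 0))
      (fun l => (l : ℕ)) ⟨l1, Finset.mem_filter.2 ⟨Finset.mem_univ _, hl1⟩⟩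
    have hxl0 : x l0 ≠ 0 := (Finset.mem_filter.1 hl0).2
    have hl0M : (l0 : ℕ) ≤ M := by omega
    have h2 : ((cm ρ J d) ^ (M - l0)) (Λ x) = 0 := by rw [hx, map_zero]
    rw [hΛ, map_sum] at h2
    have h3 := congrFun h2 (0, a)
    rw [Finset.sum_apply, Finset.sum_eq_single l0] at h3
    · rw [cm_pow ρ J d hJ hd, st_apply] at h3
      have h4 : ((0 : Fin (d + 1)) : ℕ) = 0 := rfl
      rw [h4, if_pos (Nat.zero_le _), Nat.sub_zero, show (l0 : ℕ) + (M - l0) = M by omega] at h3
      exact hxl0 (hdom M _ (Ek_mem J hJ M a b) hab _ h3)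
    · intro l _ hl
      rw [cm_pow ρ J d hJ hd, st_apply]
      have h4 : ((0 : Fin (d + 1)) : ℕ) = 0 := rfl
      rw [h4, if_pos (Nat.zero_le _), Nat.sub_zero]
      rcases lt_or_gt_of_ne hl with h5 | h5
      · have : x l = 0 := by
          by_contra h6
          have h7 := hmin l (Finset.mem_filter.2 ⟨Finset.mem_univ _, h6⟩)
          exact absurd h7 (not_le.2 h5)
        rw [this, map_zero]
      · have h6 : (l0 : ℕ) < l := h5
        rw [hMmax _ (by omega)]
        rfl
    · intro h5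
      exact absurd (Finset.mem_univ _) h5
  have hfr := LinearMap.finrank_le_finrank_of_injective hinj
  rw [Module.finrank_pi_fintype, Module.finrank_pi_fintype, Finset.sum_const, Finset.sum_const,
    Finset.card_univ, Finset.card_univ, Fintype.card_fin, Fintype.card_prod, Fintype.card_fin,
    smul_eq_mul, smul_eq_mul] at hfr
  have h8 : M + 1 ≤ (d + 1) * Fintype.card Y := Nat.le_of_mul_le_mul_right hfr hV
  omega

end rank

end Pool.Agent.R933.Ga
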