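import Pool.Agent.R933.Ga.Gr

/-!
# Cyclic representations of `A ⊗ Aᵒᵖ`
-/

set_option autoImplicit false
set_option linter.unusedSectionVars false
set_option linter.unusedSimpArgs false

namespace Pool.Agent.R933.Ga

open MonoidAlgebra MulOpposite

section rep

variable {X P : Type} [CommRing P] {r : ℕ}

/-- the coefficient of a word -/
def tw (x : X → ZMod r → P) : List X → ZMod r → P
  | [], _ => 1
  | i :: u, a => x i a * tw x u (a + 1)

theorem tw_append (x : X → ZMod r → P) (u v : List X) (a : ZMod r) :
    tw x (u ++ v) a = tw x u a * tw x v (a + (u.length : ZMod r)) := by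
  induction u generalizing a with
  | nil => simp [tw]
  | cons i u ih =>
    show x i a * tw x (u ++ v) (a + 1) = x i a * tw x u (a + 1) * _
    rw [ih, mul_assoc]
    congr 3
    rw [List.length_cons, Nat.cast_add, Nat.cast_one]
    ring

/-- the coefficient of a pair of words -/
def cw (x y : X → ZMod r → P) (m : PW X) (w : ZMod r × ZMod r) : P :=
  tw x m.1.toList w.1 * tw y m.2.unop.toList.reverse w.2

/-- the shift of a pair of words -/
def sw (m : PW X) : ZMod r × ZMod r := ((m.1.toList.length : ZMod r), (m.2.unop.toList.length : ZMod r))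

theorem sw_mul (m m' : PW X) : (sw (m * m') : ZMod r × ZMod r) = sw m + sw m' := by
  unfold sw
  apply Prod.ext
  · show (((m.1 * m'.1).toList.length : ℕ) : ZMod r) = _
    rw [FreeMonoid.toList_mul, List.length_append, Nat.cast_add]
    rfl
  · show (((m'.2.unop * m.2.unop).toList.length : ℕ) : ZMod r) = _
    rw [FreeMonoid.toList_mul, List.length_append, Nat.cast_add, add_comm]
    rfl

theorem cw_mul (x y : X → ZMod r → P) (m m' : PW X) (w : ZMod r × ZMod r) :
    cw x y (m * m') w = cw x y m w * cw x y m' (w + sw m) := by
  have h1 : (m * m').1.toList = m.1.toList ++ m'.1.toList := rfl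
  have h2 : (m * m').2.unop.toList.reverse =
      m.2.unop.toList.reverse ++ m'.2.unop.toList.reverse := by
    show (m'.2.unop.toList ++ m.2.unop.toList).reverse = _
    rw [List.reverse_append]
  unfold cw
  rw [h1, h2, tw_append, tw_append, List.length_reverse]
  show _ = tw x m.1.toList w.1 * tw y m.2.unop.toList.reverse w.2 *
    (tw x m'.1.toList (w.1 + (m.1.toList.length : ZMod r)) *
      tw y m'.2.unop.toList.reverse (w.2 + (m.2.unop.toList.length : ZMod r)))
  ring

/-- the action of a pair of words -/
def aw (x y : X → ZMod r → P) (m : PW X) :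
    (ZMod r × ZMod r → P) →ₗ[P] (ZMod r × ZMod r → P) where
  toFun f w := cw x y m w * f (w + sw m)
  map_add' f g := by
    funext w
    simp only [Pi.add_apply]
    ring
  map_smul' c f := by
    funext w
    simp only [Pi.smul_apply, smul_eq_mul, RingHom.id_apply]
    ring

variable {K : Type} [Field K] [Algebra K P]

/-- the representation of `A ⊗ Aᵒᵖ` -/
noncomputable def rep (x y : X → ZMod r → P) :
    Fe K X →ₐ[K] Module.End P (ZMod r × ZMod r → P) :=
  MonoidAlgebra.lift K (Module.End P (ZMod r × ZMod r → P)) (PW X)
    { toFun := aw x y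
      map_one' := by
        ext1 f
        funext w
        show cw x y 1 w * f (w + sw 1) = f w
        have h1 : cw x y 1 w = 1 := by
          unfold cw
          show (1 : P) * 1 = 1
          ring
        have h2 : (sw (1 : PW X) : ZMod r × ZMod r) = 0 := by
          unfold sw
          simp
        rw [h1, h2, one_mul, add_zero]
      map_mul' := by
        intro m m'
        ext1 f
        funext w
        show cw x y (m * m') w * f (w + sw (m * m')) =
          cw x y m w * (cw x y m' (w + sw m) * f (w + sw m + sw m'))
        rw [cw_mul, sw_mul, mul_assoc, add_assoc] }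

theorem rep_single (x y : X → ZMod r → P) (m : PW X) (c : K) (f : ZMod r × ZMod r → P)
    (w : ZMod r × ZMod r) :
    rep (K := K) x y (single m c) f w = c • (cw x y m w * f (w + sw m)) := by
  unfold rep
  rw [MonoidAlgebra.lift_single]
  rfl

end rep

end Pool.Agent.R933.Ga
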